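import Mathlib

/-!
# Definitions for the problem on weak soficity of graph products
-/

namespace Pool.Agent.W_MP_f2b0dc_al

/-- `d` is a bi-invariant metric on the group `H`. -/
structure IsBiInvMetric {H : Type*} [Group H] (d : H → H → ℝ) : Prop where
  eq_zero : ∀ a b, d a b = 0 ↔ a = b
  symm : ∀ a b, d a b = d b a
  triangle : ∀ a b c, d a c ≤ d a b + d b c
  left : ∀ x a b, d (x * a) (x * b) = d a b
  right : ∀ x a b, d (a * x) (b * x) = d a b

/-- Weakly sofic groups: approximable by finite groups with bi-invariant metrics. -/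
def WeaklySofic (G : Type*) [Group G] : Prop :=
  ∀ (F : Finset G) (ε : ℝ), 0 < ε →
    ∃ (H : Type) (_ : Group H) (_ : Finite H) (d : H → H → ℝ) (φ : G → H),
      IsBiInvMetric d ∧
      (∀ g ∈ F, ∀ h ∈ F, g * h ∈ F → d (φ (g * h)) (φ g * φ h) ≤ ε) ∧
      ∀ g ∈ F, g ≠ 1 → 1 ≤ d (φ g) 1

/-- Span-sofic groups: as weakly sofic, but every element of the subgroup generated by a finite
set `S` has length at most the sum of the lengths of the elements of `S`. -/
def SpanSofic (G : Type*) [Group G] : Prop :=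
  ∀ (F : Finset G) (ε : ℝ), 0 < ε →
    ∃ (H : Type) (_ : Group H) (_ : Finite H) (d : H → H → ℝ) (φ : G → H),
      IsBiInvMetric d ∧
      (∀ S : Finset H, ∀ x ∈ Subgroup.closure (S : Set H), d x 1 ≤ ∑ s ∈ S, d s 1) ∧
      (∀ g ∈ F, ∀ h ∈ F, g * h ∈ F → d (φ (g * h)) (φ g * φ h) ≤ ε) ∧
      ∀ g ∈ F, g ≠ 1 → 1 ≤ d (φ g) 1

/-- Linear sofic groups over the field `K`: approximable by invertible matrices over `K` with the
normalised rank distance. -/
def LinearSofic (K : Type*) [Field K] (G : Type*) [Group G] : Prop :=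
  ∃ δ : G → ℝ, (∀ g, g ≠ 1 → 0 < δ g) ∧
    ∀ (F : Finset G) (ε : ℝ), 0 < ε →
      ∃ (n : ℕ) (φ : G → GL (Fin n) K), 0 < n ∧
        (∀ g ∈ F, ∀ h ∈ F, g * h ∈ F →
          ((((φ (g * h)).val - (φ g).val * (φ h).val : Matrix (Fin n) (Fin n) K).rank : ℕ) : ℝ)
            ≤ ε * n) ∧
        ∀ g ∈ F, g ≠ 1 →
          δ g * n ≤ ((((φ g).val - 1 : Matrix (Fin n) (Fin n) K).rank : ℕ) : ℝ)

/-- The commutators `[a, b]` with `a`, `b` in vertex groups of adjacent vertices. -/
def graphRelators {V : Type*} (X : SimpleGraph V) (Γ : V → Type*) [∀ v, Group (Γ v)] :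
    Set (Monoid.CoprodI Γ) :=
  {c | ∃ u v, X.Adj u v ∧ ∃ (a : Γ u) (b : Γ v),
    c = Monoid.CoprodI.of a * Monoid.CoprodI.of b * (Monoid.CoprodI.of a)⁻¹ *
      (Monoid.CoprodI.of b)⁻¹}

/-- The graph product of the groups `Γ v` over the graph `X`. -/
abbrev GraphProduct {V : Type*} (X : SimpleGraph V) (Γ : V → Type*) [∀ v, Group (Γ v)] : Type _ :=
  Monoid.CoprodI Γ ⧸ Subgroup.normalClosure (graphRelators X Γ)

end Pool.Agent.W_MP_f2b0dc_al
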