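import Pool.Agent.W_MP_f2b0dc_al.Induct

set_option maxSynthPendingDepth 3
set_option linter.unusedSectionVars false

namespace Pool.Agent.W_MP_f2b0dc_al

universe u w x

lemma exists_pos_lower {α : Type*} (T : Finset α) (f : α → ℝ) (hf : ∀ a ∈ T, 0 < f a) :
    ∃ η : ℝ, 0 < η ∧ ∀ a ∈ T, η ≤ f a := by
  classical
  induction T using Finset.induction_on with
  | empty => exact ⟨1, one_pos, by simp⟩
  | insert a T ha ih =>
    obtain ⟨η, hη, h⟩ := ih (fun b hb => hf b (Finset.mem_insert_of_mem hb))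
    refine ⟨min η (f a), lt_min hη (hf a (Finset.mem_insert_self a T)), ?_⟩
    intro b hb
    rcases Finset.mem_insert.1 hb with rfl | hb
    · exact min_le_right _ _
    · exact (min_le_left _ _).trans (h b hb)

namespace Model

variable {V : Type u} {X : SimpleGraph V} {H : V → Type} [∀ v, Group (H v)]
  (𝔐 : Model X H) (ℓ : Len H)

/-- the truncated length -/
noncomputable def len (c : ℝ) (x : 𝔐.E) : ℝ :=
  sInf {c' | 0 ≤ c' ∧ (x ∈ 𝔐.Small ℓ c' ∨ c ≤ c')}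

variable {𝔐 ℓ} {c : ℝ}

lemma len_bdd (x : 𝔐.E) : BddBelow {c' | 0 ≤ c' ∧ (x ∈ 𝔐.Small ℓ c' ∨ c ≤ c')} :=
  ⟨0, fun _ h => h.1⟩

lemma len_ne (hc : 0 < c) (x : 𝔐.E) :
    {c' | 0 ≤ c' ∧ (x ∈ 𝔐.Small ℓ c' ∨ c ≤ c')}.Nonempty :=
  ⟨c, hc.le, Or.inr le_rfl⟩

lemma len_nonneg (hc : 0 < c) (x : 𝔐.E) : 0 ≤ 𝔐.len ℓ c x :=
  le_csInf (len_ne hc x) (fun _ h => h.1)

lemma len_le (hc : 0 < c) (x : 𝔐.E) : 𝔐.len ℓ c x ≤ c :=
  csInf_le (len_bdd x) ⟨hc.le, Or.inr le_rfl⟩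

lemma len_le_of_small {x : 𝔐.E} {c' : ℝ} (h : x ∈ 𝔐.Small ℓ c') : 𝔐.len ℓ c x ≤ c' :=
  csInf_le (len_bdd x) ⟨Small.nonneg h, Or.inl h⟩

lemma small_of_len_lt (hc : 0 < c) {x : 𝔐.E} {c' : ℝ} (h : 𝔐.len ℓ c x < c') (hc' : c' ≤ c) :
    x ∈ 𝔐.Small ℓ c' := by
  obtain ⟨b, ⟨_, hb⟩, hb'⟩ := exists_lt_of_csInf_lt (len_ne hc x) h
  rcases hb with hb | hb
  · exact Small.mono hb'.le hb
  · linarith

lemma len_one (hc : 0 < c) : 𝔐.len ℓ c (1 : 𝔐.E) = 0 :=
  le_antisymm (len_le_of_small (Small.one le_rfl)) (len_nonneg hc _)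

/-- every element of the group generated by `S` is at most as long as the total length -/
lemma len_span (hc : 0 < c) (S : Finset 𝔐.E) (x : 𝔐.E)
    (hx : x ∈ Subgroup.closure (S : Set 𝔐.E)) : 𝔐.len ℓ c x ≤ ∑ s ∈ S, 𝔐.len ℓ c s := by
  apply le_of_forall_pos_le_add
  intro ε hε
  set η : ℝ := ε / (S.card + 1) with hη
  have hη0 : 0 < η := by positivity
  have hsum : ∑ s ∈ S, (𝔐.len ℓ c s + η) ≤ ∑ s ∈ S, 𝔐.len ℓ c s + ε := by
    rw [Finset.sum_add_distrib, Finset.sum_const, nsmul_eq_mul, hη]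
    have : (S.card : ℝ) * (ε / (S.card + 1)) ≤ ε := by
      rw [mul_div_assoc', div_le_iff₀ (by positivity)]
      nlinarith
    linarith
  refine le_trans ?_ hsum
  by_cases h : ∀ s ∈ S, 𝔐.len ℓ c s + η ≤ c
  · apply len_le_of_small
    exact small_span S (fun s hs => small_of_len_lt hc (by linarith) (h s hs)) hx
  · push Not at h
    obtain ⟨s, hs, hsc⟩ := h
    refine (len_le hc x).trans (hsc.le.trans ?_)
    exact Finset.single_le_sum (f := fun s => 𝔐.len ℓ c s + η)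
      (fun t _ => add_nonneg (len_nonneg hc t) hη0.le) hs

lemma len_inv (hc : 0 < c) (x : 𝔐.E) : 𝔐.len ℓ c x⁻¹ = 𝔐.len ℓ c x := by
  have key : ∀ x : 𝔐.E, 𝔐.len ℓ c x⁻¹ ≤ 𝔐.len ℓ c x := by
    intro x
    apply le_csInf (len_ne hc x)
    rintro b ⟨hb0, hb | hb⟩
    · exact len_le_of_small (Small.inv hb)
    · exact (len_le hc _).trans hb
  refine le_antisymm (key x) ?_
  simpa using key x⁻¹

lemma len_conj (hc : 0 < c) (x g : 𝔐.E) : 𝔐.len ℓ c (g * x * g⁻¹) = 𝔐.len ℓ c x := by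
  have key : ∀ x g : 𝔐.E, 𝔐.len ℓ c (g * x * g⁻¹) ≤ 𝔐.len ℓ c x := by
    intro x g
    apply le_csInf (len_ne hc x)
    rintro b ⟨hb0, hb | hb⟩
    · exact len_le_of_small (Small.conj hb g)
    · exact (len_le hc _).trans hb
  refine le_antisymm (key x g) ?_
  have := key (g * x * g⁻¹) g⁻¹
  simpa [mul_assoc] using this

lemma len_mul (hc : 0 < c) (x y : 𝔐.E) : 𝔐.len ℓ c (x * y) ≤ 𝔐.len ℓ c x + 𝔐.len ℓ c y := by
  apply le_of_forall_pos_le_add
  intro ε hε
  by_cases h1 : 𝔐.len ℓ c x + ε / 2 ≤ c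
  · by_cases h2 : 𝔐.len ℓ c y + ε / 2 ≤ c
    · have h4 : x ∈ 𝔐.Small ℓ (𝔐.len ℓ c x + ε / 2) := small_of_len_lt hc (by linarith) h1
      have h5 : y ∈ 𝔐.Small ℓ (𝔐.len ℓ c y + ε / 2) := small_of_len_lt hc (by linarith) h2
      refine (len_le_of_small (Small.mul h4 h5)).trans ?_
      linarith
    · have h6 := len_le (ℓ := ℓ) hc (x * y)
      have h7 := len_nonneg (ℓ := ℓ) hc x
      linarith
  · have := len_le (ℓ := ℓ) hc (x * y)
    have := len_nonneg (ℓ := ℓ) hc y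
    linarith

lemma eq_one_of_small {η : ℝ} (hη : ∀ v (a : H v), a ≠ 1 → η ≤ ℓ.ℓ v a) {c' : ℝ} (hc' : c' < η)
    {x : 𝔐.E} (hx : x ∈ 𝔐.Small ℓ c') : x = 1 := by
  obtain ⟨l, hl, hx⟩ := hx
  have h1 : ∀ t ∈ l, t.2.1 = 1 := by
    intro t ht
    by_contra hne
    have h2 := hη _ _ hne
    have h3 : ℓ.ℓ t.1 t.2.1 ≤ 𝔐.cost ℓ l := by
      unfold cost
      apply List.single_le_sum
      · intro y hy
        simp only [List.mem_map] at hy
        obtain ⟨t', _, rfl⟩ := hy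
        exact ℓ.nonneg _ _
      · exact List.mem_map.2 ⟨t, ht, rfl⟩
    linarith
  have h2 : Subgroup.closure (𝔐.conjs l) ≤ ⊥ := by
    rw [Subgroup.closure_le]
    rintro y ⟨t, ht, rfl⟩
    have := h1 t ht
    simp [this]
  simpa using h2 hx

lemma len_pos (hc : 0 < c) {η : ℝ} (hη0 : 0 < η) (hη : ∀ v (a : H v), a ≠ 1 → η ≤ ℓ.ℓ v a)
    {x : 𝔐.E} (hx : x ≠ 1) : 0 < 𝔐.len ℓ c x := by
  by_contra h
  push Not at h
  set c' : ℝ := min (η / 2) c with hc'
  have h1 : 0 < c' := lt_min (by linarith) hc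
  have h2 := small_of_len_lt hc (lt_of_le_of_lt h h1) (min_le_right _ _)
  apply hx
  refine eq_one_of_small hη (lt_of_le_of_lt (min_le_left _ _) ?_) h2
  linarith

/-- the metric attached to the truncated length -/
lemma isBiInvMetric_len (hc : 0 < c) {η : ℝ} (hη0 : 0 < η)
    (hη : ∀ v (a : H v), a ≠ 1 → η ≤ ℓ.ℓ v a) :
    IsBiInvMetric (fun a b : 𝔐.E => 𝔐.len ℓ c (a⁻¹ * b) / c) where
  eq_zero a b := by
    constructor
    · intro h
      by_contra hne
      have h1 : a⁻¹ * b ≠ 1 := by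
        intro h2
        exact hne (inv_mul_eq_one.1 h2)
      have h2 := len_pos (ℓ := ℓ) hc hη0 hη h1
      have h3 : 0 < 𝔐.len ℓ c (a⁻¹ * b) / c := div_pos h2 hc
      exact h3.ne' h
    · rintro rfl
      simp [len_one hc]
  symm a b := by
    have := len_inv (ℓ := ℓ) hc (a⁻¹ * b)
    rw [mul_inv_rev, inv_inv] at this
    rw [this]
  triangle a b e := by
    have := len_mul (ℓ := ℓ) hc (a⁻¹ * b) (b⁻¹ * e)
    rw [mul_assoc, mul_inv_cancel_left] at this
    rw [← add_div]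
    exact div_le_div_of_nonneg_right this hc.le
  left x a b := by
    simp [mul_assoc]
  right x a b := by
    have := len_conj (ℓ := ℓ) hc (a⁻¹ * b) x⁻¹
    simp only [mul_inv_rev]
    rw [← this]
    simp [mul_assoc]

end Model

/-- Transport of the data to the lowest universe. -/
lemma transport {G : Type w} [Group G] {F : Finset G} {ε : ℝ} {H : Type u} [Group H] [Finite H]
    (d : H → H → ℝ) (φ : G → H) (h1 : IsBiInvMetric d)
    (h2 : ∀ S : Finset H, ∀ x ∈ Subgroup.closure (S : Set H), d x 1 ≤ ∑ s ∈ S, d s 1)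
    (h3 : ∀ g ∈ F, ∀ h ∈ F, g * h ∈ F → d (φ (g * h)) (φ g * φ h) ≤ ε)
    (h4 : ∀ g ∈ F, g ≠ 1 → 1 ≤ d (φ g) 1) :
    ∃ (H : Type) (_ : Group H) (_ : Finite H) (d : H → H → ℝ) (φ : G → H),
      IsBiInvMetric d ∧
      (∀ S : Finset H, ∀ x ∈ Subgroup.closure (S : Set H), d x 1 ≤ ∑ s ∈ S, d s 1) ∧
      (∀ g ∈ F, ∀ h ∈ F, g * h ∈ F → d (φ (g * h)) (φ g * φ h) ≤ ε) ∧
      ∀ g ∈ F, g ≠ 1 → 1 ≤ d (φ g) 1 := by
  classical
  let e : Shrink.{0} H ≃* H := Shrink.mulEquiv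
  refine ⟨Shrink.{0} H, inferInstance, Finite.of_equiv _ e.toEquiv.symm,
    fun a b => d (e a) (e b), fun g => e.symm (φ g), ?_, ?_, ?_, ?_⟩
  · constructor
    · intro a b
      rw [h1.eq_zero]
      exact e.injective.eq_iff
    · intro a b; exact h1.symm _ _
    · intro a b c; exact h1.triangle _ _ _
    · intro x a b; simp only [map_mul]; exact h1.left _ _ _
    · intro x a b; simp only [map_mul]; exact h1.right _ _ _
  · intro S x hx
    have := h2 (S.map e.toEquiv.toEmbedding) (e x) (by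
      have h5 : ((S.map e.toEquiv.toEmbedding : Finset H) : Set H) = e.toMonoidHom '' S := by
        rw [Finset.coe_map]; rfl
      rw [h5, ← MonoidHom.map_closure]
      exact Subgroup.mem_map_of_mem _ hx)
    rw [Finset.sum_map] at this
    simpa using this
  · intro g hg h hh hgh
    simpa using h3 g hg h hh hgh
  · intro g hg hg1
    simpa using h4 g hg hg1

/-- Graph products of span-sofic groups are span-sofic. -/
theorem spanSofic_graphProduct {V : Type u} (X : SimpleGraph V) (Γ : V → Type w)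
    [∀ v, Group (Γ v)] (h : ∀ v, SpanSofic (Γ v)) : SpanSofic (GraphProduct X Γ) := by
  classical
  intro F ε hε
  let s : ∀ j : Finset (Σ v, Γ v) × ℕ, Sys Γ j.1 j.2 := fun j => (exists_sys h j.1 j.2).some
  choose ω hω using exists_val (X := X) (Γ := Γ)
  have hmk : ∀ z, Θ X s z = QuotientGroup.mk (rep X s (ω z)) := by
    intro z
    rw [← Θ_val, hω]
  have hbig : ∀ z, z ≠ 1 → Big X s (rep X s (ω z)) := by
    intro z hz
    apply Good.big
    rw [← hmk]
    refine good_of_ne_one X s ((ω z).toFinset.image Sigma.fst) z (ω z) hz ?_ ?_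
    · intro t ht
      exact Finset.mem_image_of_mem _ (List.mem_toFinset.2 ht)
    · rw [hω]
  have hbig' : ∀ z, ∃ c : ℝ, 0 < c ∧ (z ≠ 1 → ∀ᶠ i in Filter.atTop,
      rep X s (ω z) i ∉ Sm X s i c) := by
    intro z
    by_cases hz : z = 1
    · exact ⟨1, one_pos, fun h => absurd hz h⟩
    · obtain ⟨c, hc, h⟩ := hbig z hz
      exact ⟨c, hc, fun _ => h⟩
  choose cz hcz0 hcz using hbig'
  obtain ⟨c, hc, hcF⟩ := exists_pos_lower F cz (fun a _ => hcz0 a)
  have ev1 : ∀ᶠ i in Filter.atTop, ∀ z ∈ F, z ≠ 1 → rep X s (ω z) i ∉ Sm X s i c := by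
    rw [Filter.eventually_all_finset]
    intro z hz
    by_cases hz1 : z = 1
    · exact Filter.Eventually.of_forall (fun i h => absurd hz1 h)
    · filter_upwards [hcz z hz1] with i hi _ h
      exact hi (Model.Small.mono (hcF z hz) h)
  have ev2 : ∀ᶠ i in Filter.atTop, ∀ g ∈ F, ∀ k ∈ F,
      (rep X s (ω (g * k)) i)⁻¹ * (rep X s (ω g) i * rep X s (ω k) i) ∈ Sm X s i (ε * c) := by
    rw [Filter.eventually_all_finset]
    intro g _
    rw [Filter.eventually_all_finset]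
    intro k _
    have h1 : (QuotientGroup.mk (rep X s (ω (g * k))) : Q X s) =
        QuotientGroup.mk (rep X s (ω g) * rep X s (ω k)) := by
      rw [QuotientGroup.mk_mul, ← hmk, ← hmk, ← hmk, map_mul]
    rw [QuotientGroup.eq] at h1
    exact h1 (ε * c) (by positivity)
  obtain ⟨i, hi1, hi2⟩ := (ev1.and ev2).exists
  obtain ⟨η, hη0, hη⟩ : ∃ η : ℝ, 0 < η ∧ ∀ v (a : (s i.1).H v), a ≠ 1 → η ≤ (s i.1).ℓ.ℓ v a := by
    have : ∀ v, ∃ η : ℝ, 0 < η ∧ ∀ a : (s i.1).H v, a ≠ 1 → η ≤ (s i.1).ℓ.ℓ v a := by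
      intro v
      have := Fintype.ofFinite ((s i.1).H v)
      obtain ⟨η, hη, h⟩ := exists_pos_lower (Finset.univ.filter (fun a : (s i.1).H v => a ≠ 1))
        (fun a => (s i.1).ℓ.ℓ v a) (fun a ha => (s i.1).pos v a (Finset.mem_filter.1 ha).2)
      exact ⟨η, hη, fun a ha => h a (Finset.mem_filter.2 ⟨Finset.mem_univ _, ha⟩)⟩
    choose ηv hηv0 hηv using this
    obtain ⟨η, hη, h⟩ := exists_pos_lower (s i.1).S ηv (fun a _ => hηv0 a)
    refine ⟨η, hη, ?_⟩
    intro v a ha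
    by_cases hv : v ∈ (s i.1).S
    · exact (h v hv).trans (hηv v a ha)
    · have := (s i.1).sub v hv
      exact absurd (Subsingleton.elim a 1) ha
  refine transport (F := F) (ε := ε) (H := (M X s i).E)
    (fun a b => (M X s i).len (s i.1).ℓ c (a⁻¹ * b) / c) (fun z => rep X s (ω z) i)
    (Model.isBiInvMetric_len hc hη0 hη) ?_ ?_ ?_
  · intro S x hx
    have := Model.len_span (ℓ := (s i.1).ℓ) hc S x hx
    simp only [mul_one]
    rw [Model.len_inv hc]
    simp only [Model.len_inv hc]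
    rw [← Finset.sum_div]
    exact div_le_div_of_nonneg_right this hc.le
  · intro g hg k hk _
    have := Model.len_le_of_small (c := c) (hi2 g hg k hk)
    rw [div_le_iff₀ hc]
    exact this
  · intro g hg hg1
    have h1 := hi1 g hg hg1
    simp only [mul_one]
    rw [Model.len_inv hc, le_div_iff₀ hc, one_mul]
    by_contra h2
    push Not at h2
    exact h1 (Model.small_of_len_lt hc h2 le_rfl)

end Pool.Agent.W_MP_f2b0dc_al
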