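import Pool.Agent.W_MP_f2b0dc_al.Linear

set_option maxSynthPendingDepth 3

namespace Pool.Agent.W_MP_f2b0dc_al
universe u w v

lemma SpanSofic.weaklySofic {G : Type*} [Group G] (h : SpanSofic G) : WeaklySofic G := by
  intro F ε hε
  obtain ⟨H, g1, g2, d, φ, h1, _, h3, h4⟩ := h F ε hε
  exact ⟨H, g1, g2, d, φ, h1, h3, h4⟩

lemma SpanSofic.of_injective {G : Type*} [Group G] {G' : Type*} [Group G'] (h : SpanSofic G)
    (f : G' →* G) (hf : Function.Injective f) : SpanSofic G' := by
  classical
  intro F ε hε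
  obtain ⟨H, g1, g2, d, φ, h1, h2, h3, h4⟩ := h (F.image f) ε hε
  refine ⟨H, g1, g2, d, fun g => φ (f g), h1, h2, ?_, ?_⟩
  · intro g hg k hk hgk
    simp only [map_mul]
    apply h3 _ (Finset.mem_image_of_mem _ hg) _ (Finset.mem_image_of_mem _ hk)
    rw [← map_mul]
    exact Finset.mem_image_of_mem _ hgk
  · intro g hg hg1
    apply h4 _ (Finset.mem_image_of_mem _ hg)
    intro h5
    exact hg1 (hf (by rw [h5, map_one]))

/-- the graph product over the edgeless graph is the free product -/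
lemma spanSofic_coprodI {V : Type u} (Γ : V → Type w) [∀ v, Group (Γ v)]
    (h : ∀ v, SpanSofic (Γ v)) : SpanSofic (Monoid.CoprodI Γ) := by
  refine (spanSofic_graphProduct (⊥ : SimpleGraph V) Γ h).of_injective
    (QuotientGroup.mk' (Subgroup.normalClosure (graphRelators (⊥ : SimpleGraph V) Γ))) ?_
  rw [← MonoidHom.ker_eq_bot_iff, QuotientGroup.ker_mk']
  have : graphRelators (⊥ : SimpleGraph V) Γ = ∅ := by
    ext c
    simp [graphRelators]
  rw [this, Subgroup.normalClosure_empty]

end Pool.Agent.W_MP_f2b0dc_al
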