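import Pool.Agent.W_MP_f2b0dc_al.Main

set_option maxSynthPendingDepth 3
set_option linter.unusedSectionVars false

namespace Pool.Agent.W_MP_f2b0dc_al

universe u w

variable {V : Type u} (X : SimpleGraph V) {Γ : V → Type w} [∀ v, Group (Γ v)]
variable (s : ∀ j : Finset (Σ v, Γ v) × ℕ, Sys Γ j.1 j.2)

lemma big_ofP (v : V) (g : Γ v) (hg : g ≠ 1) : Big X s (rep X s [⟨v, g⟩]) := by
  classical
  refine ⟨1 / 2, by norm_num, ?_⟩
  filter_upwards [eventually_large {⟨v, g⟩} 0 0] with i hi hsm
  have h1 := (s i.1).sep v g (hi.1 (by simp)) hg
  have h2 := Model.small_p (ℓ := (s i.1).ℓ) v hsm
  have h3 : (M X s i).p v (rep X s [⟨v, g⟩] i) = (s i.1).φ v g := by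
    simp [rep, (M X s i).p_same]
  rw [h3] at h2
  linarith

/-- Main statement: nontrivial elements of the graph product are good. -/
theorem good_of_ne_one : ∀ (A : Finset V) (z : GraphProduct X Γ) (ω : List (Σ v, Γ v)),
    z ≠ 1 → (∀ t ∈ ω, t.1 ∈ A) → IsConj (val X ω) z → Good (Θ X s z) := by
  classical
  intro A
  induction A using Finset.induction_on with
  | empty =>
    intro z ω hz hω hc
    have : ω = [] := by
      cases ω with
      | nil => rfl
      | cons t ω => exact absurd (hω t (by simp)) (by simp)
    subst this
    rw [val_nil] at hc
    exact absurd (isConj_one_right.1 hc) hz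
  | insert v A hvA ihA =>
    have main : ∀ (N : ℕ) (z : GraphProduct X Γ) (ω : List (Σ v, Γ v)), cnt v ω = N →
        z ≠ 1 → (∀ t ∈ ω, t.1 ∈ insert v A) → IsConj (val X ω) z → Good (Θ X s z) := by
      intro N
      induction N using Nat.strong_induction_on with
      | _ N ihN =>
        intro z ω hN hz hω hc
        by_cases hmin : ∃ ω' : List (Σ v, Γ v), (∀ t ∈ ω', t.1 ∈ insert v A) ∧ cnt v ω' < N ∧
            IsConj (val X ω') z
        · obtain ⟨ω', h1, h2, h3⟩ := hmin
          exact ihN (cnt v ω') h2 z ω' rfl hz h1 h3
        · rcases Nat.eq_zero_or_pos N with h0 | hpos
          · -- no `v`-letters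
            refine ihA z ω hz ?_ hc
            intro t ht
            have h1 := cnt_eq_zero (hN.trans h0) t ht
            have h2 := hω t ht
            rw [Finset.mem_insert] at h2
            exact h2.resolve_left h1
          · rw [← hN] at hpos
            obtain ⟨α, g, β, rfl⟩ := exists_of_cnt_pos hpos
            -- rotate
            set W : List (Σ v, Γ v) := ⟨v, g⟩ :: (β ++ α) with hW
            have hconj1 : IsConj (val X (α ++ ⟨v, g⟩ :: β)) (val X W) := by
              rw [isConj_iff]
              refine ⟨(val X α)⁻¹, ?_⟩
              simp [hW, mul_assoc]
            have hWz : IsConj (val X W) z := hconj1.symm.trans hc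
            have hWA : ∀ t ∈ W, t.1 ∈ insert v A := by
              intro t ht
              apply hω t
              simp only [hW, List.mem_cons, List.mem_append] at ht
              simp only [List.mem_cons, List.mem_append]
              tauto
            have hWN : cnt v W = N := by
              rw [← hN, hW, cnt_cons_self, cnt_append, cnt_append, cnt_cons_self]
              omega
            have hΘ : IsConj (Θ X s (val X W)) (Θ X s z) := (Θ X s).map_isConj hWz
            refine good_of_isConj hΘ ?_
            rw [Θ_val]
            refine ⟨_, rfl, ?_⟩
            rw [hW]
            apply big_of_prefixes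
            intro w₁ b w₂ hdec
            have hdec' : W = w₁ ++ ⟨v, b⟩ :: w₂ := hdec
            -- the element
            set z' : GraphProduct X Γ := val X (w₁ ++ [⟨v, b⟩]) *
              (val X (lkw X v (w₁ ++ [⟨v, b⟩])))⁻¹ with hz'
            have hgood : Good (Θ X s z') → Big X s (rep X s (w₁ ++ [⟨v, b⟩]) *
                (rep X s (lkw X v (w₁ ++ [⟨v, b⟩])))⁻¹) := by
              intro h
              rw [hz', map_mul, map_inv, Θ_val, Θ_val, ← QuotientGroup.mk_inv,
                ← QuotientGroup.mk_mul] at h
              exact h.big
            apply hgood
            have hlk : lkw X v (w₁ ++ [⟨v, b⟩]) = lkw X v w₁ := by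
              rw [lkw_append]
              have : lkw X v [(⟨v, b⟩ : Σ v, Γ v)] = [] := by
                rw [lkw_self]; simp [lkw]
              rw [this, List.append_nil]
            have hz'1 : z' ≠ 1 := by
              intro h1
              have h2 : val X (w₁ ++ [⟨v, b⟩]) = val X (lkw X v w₁) := by
                rw [hz', hlk] at h1
                exact mul_inv_eq_one.1 h1
              apply hmin
              refine ⟨lkw X v w₁ ++ w₂, ?_, ?_, ?_⟩
              · intro t ht
                rcases List.mem_append.1 ht with ht | ht
                · exact hWA t (by rw [hdec']; simp [(mem_lkw X ht).1])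
                · exact hWA t (by rw [hdec']; simp [ht])
              · rw [cnt_append, cnt_lkw, ← hWN, hdec', cnt_append, cnt_cons_self]
                omega
              · have : val X (lkw X v w₁ ++ w₂) = val X W := by
                  rw [val_append, ← h2, hdec', ← val_append]
                  simp
                rw [this]
                exact hWz
            cases w₁ with
            | nil =>
              have h1 : z' = ofP X v b := by
                rw [hz', hlk]
                simp [lkw]
              have hb : b ≠ 1 := by
                rintro rfl
                rw [h1, map_one] at hz'1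
                exact hz'1 rfl
              have h2 : z' = val X [⟨v, b⟩] := by rw [h1]; simp
              rw [h2, Θ_val]
              exact ⟨_, rfl, big_ofP X s v b hb⟩
            | cons t σ =>
              have ht : t = ⟨v, g⟩ := by
                have := hdec'
                rw [hW, List.cons_append, List.cons.injEq] at this
                exact this.1.symm
              subst ht
              have hlk2 : lkw X v (⟨v, g⟩ :: σ) = lkw X v σ := lkw_self X v g σ
              set ω' : List (Σ v, Γ v) := ⟨v, b * g⟩ :: (σ ++ invw (lkw X v σ)) with hω'
              have hcnt : cnt v ω' < N := by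
                rw [hω', cnt_cons_self, cnt_append, cnt_invw_lkw, ← hWN, hdec', cnt_append,
                  cnt_cons_self, cnt_cons_self]
                omega
              refine ihN (cnt v ω') hcnt z' ω' rfl hz'1 ?_ ?_
              · intro t ht
                rw [hω'] at ht
                rcases List.mem_cons.1 ht with rfl | ht
                · exact Finset.mem_insert_self _ _
                rcases List.mem_append.1 ht with ht | ht
                · exact hWA t (by rw [hdec']; simp [ht])
                · obtain ⟨t', ht', he⟩ := mem_invw ht
                  rw [← he]
                  exact hWA t' (by rw [hdec']; simp [(mem_lkw X ht').1])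
              · rw [isConj_iff]
                refine ⟨(ofP X v b)⁻¹, ?_⟩
                have hcomm : Commute (ofP X v b) (val X (lkw X v σ)) :=
                  ofP_commute_val X b _ (fun t ht => (mem_lkw X ht).2)
                have hcomm' : ofP X v b * (val X (lkw X v σ))⁻¹ =
                    (val X (lkw X v σ))⁻¹ * ofP X v b := hcomm.inv_right.eq
                rw [hz', hlk, hlk2, hω', val_cons, val_append, val_append, val_cons, val_cons,
                  val_nil, val_invw]
                simp only [map_mul, mul_one, inv_inv]
                rw [mul_assoc (ofP X v g * val X σ), hcomm']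
                group
    intro z ω hz hω hc
    exact main _ z ω rfl hz hω hc

end Pool.Agent.W_MP_f2b0dc_al
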