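import Pool.Agent.W_MP_f2b0dc_al.Small

set_option maxSynthPendingDepth 3
set_option linter.unusedSectionVars false

namespace Pool.Agent.W_MP_f2b0dc_al

universe u

variable {V : Type u} {X : SimpleGraph V} {H : V → Type} [∀ v, Group (H v)]

namespace Model

variable (𝔐 : Model X H) (S : Finset V) (n : ℕ)

/-- lamps at the vertex `v` on the `R`-orbit of the base coset -/
def orb (R : Subgroup 𝔐.E) (v : V) : Set (𝔐.Ω S) :=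
  {ω | ∃ ρ ∈ R, ∃ h : v ∈ S, ω = ⟨⟨v, h⟩, ((ρ : 𝔐.E) : 𝔐.E ⧸ 𝔐.L v)⟩}

lemma smul_mem_orb {R : Subgroup 𝔐.E} {v : V} {e : 𝔐.E} (he : e ∈ R) {ω : 𝔐.Ω S}
    (h : ω ∈ 𝔐.orb S R v) : e • ω ∈ 𝔐.orb S R v := by
  obtain ⟨ρ, hρ, hv, rfl⟩ := h
  exact ⟨e * ρ, mul_mem he hρ, hv, rfl⟩

lemma smul_mem_orb_iff {R : Subgroup 𝔐.E} {v : V} {e : 𝔐.E} (he : e ∈ R) {ω : 𝔐.Ω S} :
    e • ω ∈ 𝔐.orb S R v ↔ ω ∈ 𝔐.orb S R v := by
  refine ⟨fun h => ?_, fun h => 𝔐.smul_mem_orb S he h⟩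
  have := 𝔐.smul_mem_orb S (inv_mem he) h
  rwa [inv_smul_smul] at this

open Classical in
/-- the sum of the lamps over the orbit -/
noncomputable def T (R : Subgroup 𝔐.E) (v : V) : 𝔐.Mod S n →+ ZMod n :=
  Finsupp.liftAddHom (fun ω => if ω ∈ 𝔐.orb S R v then AddMonoidHom.id (ZMod n) else 0)

open Classical in
lemma T_single (R : Subgroup 𝔐.E) (v : V) (ω : 𝔐.Ω S) (t : ZMod n) :
    𝔐.T S n R v (Finsupp.single ω t) = if ω ∈ 𝔐.orb S R v then t else 0 := by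
  unfold T
  rw [Finsupp.liftAddHom_apply_single]
  split_ifs <;> simp

lemma T_smul {R : Subgroup 𝔐.E} (v : V) {e : 𝔐.E} (he : e ∈ R) (m : 𝔐.Mod S n) :
    𝔐.T S n R v (e • m) = 𝔐.T S n R v m := by
  induction m using Finsupp.induction_linear with
  | zero => simp
  | add f g hf hg => rw [smul_add, map_add, hf, hg, map_add]
  | single ω t =>
    rw [smul_single, T_single, T_single]
    by_cases h : ω ∈ 𝔐.orb S R v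
    · rw [if_pos h, if_pos (𝔐.smul_mem_orb S he h)]
    · rw [if_neg h, if_neg (fun h' => h ((𝔐.smul_mem_orb_iff S he).1 h'))]

lemma T_χ_ne {R : Subgroup 𝔐.E} {u v : V} (h : u ≠ v) (x : 𝔐.E) :
    𝔐.T S n R v (x • 𝔐.χ S n u) = 0 := by
  unfold χ
  by_cases hu : u ∈ S
  · simp only [hu, dif_pos]
    rw [smul_single]
    have : (x • (⟨⟨u, hu⟩, ((1 : 𝔐.E) : 𝔐.E ⧸ 𝔐.L u)⟩ : 𝔐.Ω S)) ∉ 𝔐.orb S R v := by
      rintro ⟨ρ, _, hv, h'⟩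
      exact h (congrArg (fun ω : 𝔐.Ω S => ω.1.1) h')
    rw [T_single, if_neg this]
  · simp [hu]

lemma T_χ_mem {R : Subgroup 𝔐.E} {v : V} (hv : v ∈ S) {x : 𝔐.E}
    (hx : ∃ ρ ∈ R, ρ⁻¹ * x ∈ 𝔐.L v) :
    𝔐.T S n R v (x • 𝔐.χ S n v) = 1 := by
  unfold χ
  simp only [hv, dif_pos]
  rw [smul_single]
  have : (x • (⟨⟨v, hv⟩, ((1 : 𝔐.E) : 𝔐.E ⧸ 𝔐.L v)⟩ : 𝔐.Ω S)) ∈ 𝔐.orb S R v := by
    obtain ⟨ρ, hρ, h⟩ := hx
    refine ⟨ρ, hρ, hv, ?_⟩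
    refine Sigma.ext rfl (heq_of_eq ?_)
    change x • ((1 : 𝔐.E) : 𝔐.E ⧸ 𝔐.L v) = ((ρ : 𝔐.E) : 𝔐.E ⧸ 𝔐.L v)
    rw [MulAction.Quotient.smul_coe, eq_comm, QuotientGroup.eq]
    simpa using h
  rw [T_single, if_pos this]

lemma T_χ_not_mem {R : Subgroup 𝔐.E} {v : V} {x : 𝔐.E}
    (hx : ¬ ∃ ρ ∈ R, ρ⁻¹ * x ∈ 𝔐.L v) :
    𝔐.T S n R v (x • 𝔐.χ S n v) = 0 := by
  unfold χ
  by_cases hv : v ∈ S
  · simp only [hv, dif_pos]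
    rw [smul_single]
    have : (x • (⟨⟨v, hv⟩, ((1 : 𝔐.E) : 𝔐.E ⧸ 𝔐.L v)⟩ : 𝔐.Ω S)) ∉ 𝔐.orb S R v := by
      rintro ⟨ρ, hρ, hv', h'⟩
      apply hx
      refine ⟨ρ, hρ, ?_⟩
      have h2 := eq_of_heq (Sigma.mk.inj h').2
      change x • ((1 : 𝔐.E) : 𝔐.E ⧸ 𝔐.L v) = ((ρ : 𝔐.E) : 𝔐.E ⧸ 𝔐.L v) at h2
      rw [MulAction.Quotient.smul_coe, eq_comm, QuotientGroup.eq] at h2
      simpa using h2
    rw [T_single, if_neg this]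
  · simp [hv]

variable [NeZero n]

lemma step_ev_x (w : List (Σ v, H v)) : ((𝔐.step S n).ev w).x = 𝔐.ev w := by
  induction w with
  | nil => rfl
  | cons t w ih =>
    rw [ev_cons, ev_cons, ← ih]
    rfl

lemma step_ev_cons_f (t : Σ v, H v) (w : List (Σ v, H v)) :
    ((𝔐.step S n).ev (t :: w)).f = 𝔐.χ S n t.1 - 𝔐.ψ t.1 t.2 • 𝔐.χ S n t.1 +
      𝔐.ψ t.1 t.2 • ((𝔐.step S n).ev w).f := by
  rw [ev_cons]
  rfl

/-- If no prefix ending in a `v`-letter returns to `R * L v` then the lamp sum just counts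
the `v`-letters which start in `R * L v`. -/
lemma count (R : Subgroup 𝔐.E) (v : V) (hv : v ∈ S) (w : List (Σ v, H v)) : ∀ (u : 𝔐.E),
    (∀ w₁ h w₂, w = w₁ ++ ⟨v, h⟩ :: w₂ →
      ¬ ∃ ρ ∈ R, ρ⁻¹ * (u * 𝔐.ev (w₁ ++ [⟨v, h⟩])) ∈ 𝔐.L v) →
    ∃ k : ℕ, k ≤ w.length ∧ 𝔐.T S n R v (u • ((𝔐.step S n).ev w).f) = k ∧
      ((∃ h w', w = ⟨v, h⟩ :: w') → (∃ ρ ∈ R, ρ⁻¹ * u ∈ 𝔐.L v) → 1 ≤ k) := by
  induction w with
  | nil =>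
    intro u _
    refine ⟨0, by simp, ?_, ?_⟩
    · have : ((𝔐.step S n).ev []).f = (0 : 𝔐.Mod S n) := rfl
      rw [this]
      simp
    · rintro ⟨h, w', hw⟩
      simp at hw
  | cons t w ih =>
    intro u hu
    obtain ⟨k, hk, hT, _⟩ := ih (u * 𝔐.ψ t.1 t.2) (by
      intro w₁ h w₂ hw
      have := hu (t :: w₁) h w₂ (by rw [hw]; rfl)
      simpa [mul_assoc] using this)
    rw [mul_smul] at hT
    rw [step_ev_cons_f, smul_add, smul_sub, map_add, map_sub, hT, ← mul_smul]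
    by_cases hvt : t.1 = v
    · obtain ⟨v', h⟩ := t
      simp only at hvt
      subst hvt
      have h1 : 𝔐.T S n R v' ((u * 𝔐.ψ v' h) • 𝔐.χ S n v') = 0 := by
        apply T_χ_not_mem
        have := hu [] h w rfl
        simpa using this
      rw [h1]
      by_cases h2 : ∃ ρ ∈ R, ρ⁻¹ * u ∈ 𝔐.L v'
      · rw [𝔐.T_χ_mem S n hv h2]
        refine ⟨k + 1, by simpa using hk, ?_, fun _ _ => by omega⟩
        push_cast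
        ring
      · rw [𝔐.T_χ_not_mem S n h2]
        refine ⟨k, by simp; omega, by simp, fun _ h => absurd h h2⟩
    · rw [𝔐.T_χ_ne S n hvt, 𝔐.T_χ_ne S n hvt]
      refine ⟨k, by simp; omega, by simp, ?_⟩
      rintro ⟨h, w', hw⟩
      simp only [List.cons.injEq] at hw
      exact absurd (congrArg Sigma.fst hw.1) hvt

variable {𝔐 S n} {ℓ : Len H}

/-- Key lemma: a word which is small at the next level has a nonempty prefix which, after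
correction by a link element, is small at this level. -/
lemma lemmaB {c : ℝ} (v : V) (hv : v ∈ S) (a : H v) (w : List (Σ v, H v))
    (hlen : w.length + 1 < n) (h : (𝔐.step S n).ev (⟨v, a⟩ :: w) ∈ (𝔐.step S n).Small ℓ c) :
    ∃ w₁ b w₂, (⟨v, a⟩ :: w : List (Σ v, H v)) = w₁ ++ ⟨v, b⟩ :: w₂ ∧
      𝔐.ev (w₁ ++ [⟨v, b⟩]) * (𝔐.π (lk X v) (𝔐.ev (w₁ ++ [⟨v, b⟩])))⁻¹ ∈ 𝔐.Small ℓ (c + c) := by
  obtain ⟨l, hl, hx⟩ := h
  let l' : List (Σ v, H v × 𝔐.E) := l.map (fun t => ⟨t.1, (t.2.1, t.2.2.x)⟩)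
  have hcost : 𝔐.cost ℓ l' = (𝔐.step S n).cost ℓ l := by
    simp [cost, l', Function.comp_def]
  set R : Subgroup 𝔐.E := Subgroup.closure (𝔐.conjs l') with hR
  have hmem : ((𝔐.step S n).ev (⟨v, a⟩ :: w)).x ∈ R ∧
      𝔐.T S n R v ((𝔐.step S n).ev (⟨v, a⟩ :: w)).f = 0 := by
    refine Subgroup.closure_induction
      (p := fun (z : SD 𝔐.E (𝔐.Mod S n)) _ => z.x ∈ R ∧ 𝔐.T S n R v z.f = 0)
      ?_ ?_ ?_ ?_ hx
    · rintro y ⟨t, ht, rfl⟩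
      have hmem : t.2.2.x * 𝔐.ψ t.1 t.2.1 * t.2.2.x⁻¹ ∈ R := by
        apply Subgroup.subset_closure
        exact ⟨⟨t.1, (t.2.1, t.2.2.x)⟩, List.mem_map.2 ⟨t, ht, rfl⟩, rfl⟩
      have e1 : t.2.2 * (𝔐.step S n).ψ t.1 t.2.1 * t.2.2⁻¹ =
          (⟨(t.2.2.f + t.2.2.x • 𝔐.χ S n t.1) - (t.2.2.x * 𝔐.ψ t.1 t.2.1 * t.2.2.x⁻¹) •
            (t.2.2.f + t.2.2.x • 𝔐.χ S n t.1), t.2.2.x * 𝔐.ψ t.1 t.2.1 * t.2.2.x⁻¹⟩ :
            SD 𝔐.E (𝔐.Mod S n)) := SD.conjM_conj (𝔐.χ S n t.1) (𝔐.ψ t.1 t.2.1) t.2.2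
      rw [e1]
      refine ⟨hmem, ?_⟩
      rw [map_sub, 𝔐.T_smul S n v hmem, sub_self]
    · exact ⟨one_mem _, map_zero _⟩
    · rintro a b _ _ ⟨ha, ha'⟩ ⟨hb, hb'⟩
      refine ⟨mul_mem ha hb, ?_⟩
      have : 𝔐.T S n R v (a.f + a.x • b.f) = 0 := by
        rw [map_add, ha', 𝔐.T_smul S n v ha, hb', add_zero]
      exact this
    · rintro a _ ⟨ha, ha'⟩
      refine ⟨inv_mem ha, ?_⟩
      have : 𝔐.T S n R v (-(a.x⁻¹ • a.f)) = 0 := by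
        rw [map_neg, 𝔐.T_smul S n v (inv_mem ha), ha', neg_zero]
      exact this
  obtain ⟨hmx, hmT⟩ := hmem
  by_contra hcon
  push Not at hcon
  obtain ⟨k, hk, hkT, hk1⟩ := 𝔐.count S n R v hv (⟨v, a⟩ :: w) 1 (by
    intro w₁ b w₂ hw
    rintro ⟨ρ, hρ, hL⟩
    rw [one_mul] at hL
    apply hcon w₁ b w₂ hw
    set z := 𝔐.ev (w₁ ++ [⟨v, b⟩]) with hz
    have hπ := 𝔐.π_lk_eq v hL
    rw [map_mul, map_inv] at hπ
    have h1 : z * (𝔐.π (lk X v) z)⁻¹ = ρ * (𝔐.π (lk X v) ρ)⁻¹ := by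
      have : 𝔐.π (lk X v) z = 𝔐.π (lk X v) ρ * (ρ⁻¹ * z) := by
        rw [← hπ]; group
      rw [this]; group
    rw [h1]
    have hρ' : ρ ∈ 𝔐.Small ℓ c := ⟨l', by rw [hcost]; exact hl, hρ⟩
    exact Small.mul hρ' (Small.inv (small_π _ hρ')))
  have hk2 := hk1 ⟨a, w, rfl⟩ ⟨1, one_mem _, by simp⟩
  rw [one_smul] at hkT
  rw [hmT] at hkT
  have h3 : ((k : ℕ) : ZMod n) = 0 := hkT.symm
  rw [ZMod.natCast_eq_zero_iff] at h3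
  have := Nat.le_of_dvd (by omega) h3
  simp at hk
  omega

end Model

end Pool.Agent.W_MP_f2b0dc_al
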