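import Mathlib

/-!
# Specialisation of matrices over a field to a finite field, preserving ranks
-/

namespace Pool.Agent.W_MP_f2b0dc_al

open Matrix

universe u

lemma isJacobsonRing_int : IsJacobsonRing ℤ := by
  rw [isJacobsonRing_iff_prime_eq]
  intro P hP
  by_cases h : P = ⊥
  · subst h
    rw [eq_bot_iff]
    intro x hx
    rw [Ideal.mem_jacobson_bot] at hx
    have h1 := hx x
    rw [Int.isUnit_iff] at h1
    have : x = 0 := by
      rcases h1 with h1 | h1 <;> nlinarith
    simpa using this
  · have := hP.isMaximal h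
    exact Ideal.jacobson_eq_self_of_isMaximal

/-- a field of finite type over the integers is finite -/
lemma finite_of_finiteType_int (k : Type u) [Field k] [Algebra ℤ k] [Algebra.FiniteType ℤ k] :
    Finite k := by
  have hsub : ‹Algebra ℤ k› = Ring.toIntAlgebra k := Subsingleton.elim _ _
  subst hsub
  have := isJacobsonRing_int
  have hfin : Module.Finite ℤ k := finite_of_finite_type_of_isJacobsonRing ℤ k
  have hint : Algebra.IsIntegral ℤ k := inferInstance
  obtain ⟨p, hp⟩ := CharP.exists k
  rcases CharP.char_is_prime_or_zero k p with hpr | h0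
  · have : Fact p.Prime := ⟨hpr⟩
    let _ : Algebra (ZMod p) k := ZMod.algebra k p
    have : IsScalarTower ℤ (ZMod p) k := inferInstance
    have : Module.Finite (ZMod p) k := Module.Finite.of_restrictScalars_finite ℤ (ZMod p) k
    exact Module.finite_of_finite (ZMod p)
  · subst h0
    have := CharP.charP_to_charZero k
    exact absurd (isField_of_isIntegral_of_isField (R := ℤ) (S := k)
      (by simpa using Int.cast_injective) (Field.toIsField k)) Int.not_isField

/-- A finite subset of a field lies in a subring with a homomorphism to a finite field. -/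
lemma exists_spec {K : Type u} [Field K] (T : Finset K) :
    ∃ (A : Subring K) (k : Type u) (_ : Field k) (_ : Finite k) (_ : A →+* k), ∀ x ∈ T, x ∈ A := by
  let B : Subalgebra ℤ K := Algebra.adjoin ℤ (T : Set K)
  have hB : Algebra.FiniteType ℤ B :=
    B.fg_iff_finiteType.1 ⟨T, rfl⟩
  obtain ⟨m, hm⟩ := Ideal.exists_maximal B
  have hft : Algebra.FiniteType ℤ (B ⧸ m) :=
    Algebra.FiniteType.of_surjective (Ideal.Quotient.mkₐ ℤ m) (Ideal.Quotient.mkₐ_surjective ℤ m)
  let fld := Ideal.Quotient.field m
  refine ⟨B.toSubring, B ⧸ m, fld, @finite_of_finiteType_int _ fld _ hft,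
    (Ideal.Quotient.mk m : B →+* B ⧸ m), ?_⟩
  intro x hx
  exact Algebra.subset_adjoin hx

section

variable {K : Type u} [Field K] {n : ℕ}

lemma map_inj {A : Subring K} {M N : Matrix (Fin n) (Fin n) A}
    (h : M.map A.subtype = N.map A.subtype) : M = N := by
  ext i j
  exact congrFun (congrFun h i) j

/-- lift of a matrix to a subring containing its entries -/
def liftM (A : Subring K) (M : Matrix (Fin n) (Fin n) K) (h : ∀ i j, M i j ∈ A) :
    Matrix (Fin n) (Fin n) A := fun i j => ⟨M i j, h i j⟩

lemma liftM_map (A : Subring K) (M : Matrix (Fin n) (Fin n) K) (h : ∀ i j, M i j ∈ A) :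
    (liftM A M h).map A.subtype = M := rfl

/-- the entries of a matrix -/
noncomputable def entries (M : Matrix (Fin n) (Fin n) K) : Finset K := by
  classical exact Finset.univ.image (fun ij : Fin n × Fin n => M ij.1 ij.2)

omit [Field K] in
lemma mem_entries (M : Matrix (Fin n) (Fin n) K) (i j : Fin n) : M i j ∈ entries M := by
  classical
  exact Finset.mem_image.2 ⟨(i, j), Finset.mem_univ _, rfl⟩

/-- The rank of a matrix is preserved by specialisations defined on a suitable finite set. -/
lemma exists_rank_spec (M : Matrix (Fin n) (Fin n) K) :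
    ∃ T : Finset K, ∀ (A : Subring K), (∀ x ∈ T, x ∈ A) → ∀ (k : Type u) [Field k] (f : A →+* k)
      (M' : Matrix (Fin n) (Fin n) A), M'.map A.subtype = M → (M'.map f).rank = M.rank := by
  classical
  obtain ⟨L, L', D, hM⟩ := Matrix.Pivot.exists_list_transvec_mul_diagonal_mul_list_transvec M
  set P := (L.map TransvectionStruct.toMatrix).prod with hP
  set Q := (L'.map TransvectionStruct.toMatrix).prod with hQ
  have hPdet : P.det = 1 := by
    rw [hP]; exact TransvectionStruct.det_toMatrix_prod L
  have hQdet : Q.det = 1 := by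
    rw [hQ]; exact TransvectionStruct.det_toMatrix_prod L'
  have hPu : IsUnit P.det := by rw [hPdet]; exact isUnit_one
  have hQu : IsUnit Q.det := by rw [hQdet]; exact isUnit_one
  refine ⟨entries P ∪ entries P⁻¹ ∪ entries Q ∪ entries Q⁻¹ ∪ Finset.univ.image D ∪
    Finset.univ.image (fun i => (D i)⁻¹), ?_⟩
  intro A hA k _ f M' hM'
  have hAP : ∀ i j, P i j ∈ A := fun i j => hA _ (by simp [mem_entries])
  have hAP' : ∀ i j, P⁻¹ i j ∈ A := fun i j => hA _ (by
    simp only [Finset.mem_union]
    exact Or.inl (Or.inl (Or.inl (Or.inl (Or.inr (mem_entries _ i j))))))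
  have hAQ : ∀ i j, Q i j ∈ A := fun i j => hA _ (by
    simp only [Finset.mem_union]
    exact Or.inl (Or.inl (Or.inl (Or.inr (mem_entries _ i j)))))
  have hAQ' : ∀ i j, Q⁻¹ i j ∈ A := fun i j => hA _ (by
    simp only [Finset.mem_union]
    exact Or.inl (Or.inl (Or.inr (mem_entries _ i j))))
  have hAD : ∀ i, D i ∈ A := fun i => hA _ (by
    simp only [Finset.mem_union]
    exact Or.inl (Or.inr (Finset.mem_image_of_mem _ (Finset.mem_univ _))))
  have hAD' : ∀ i, (D i)⁻¹ ∈ A := fun i => hA _ (by
    simp only [Finset.mem_union]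
    exact Or.inr (Finset.mem_image.2 ⟨i, Finset.mem_univ _, rfl⟩))
  let D' : Fin n → A := fun i => ⟨D i, hAD i⟩
  have h1 : M' = liftM A P hAP * diagonal D' * liftM A Q hAQ := by
    apply map_inj
    rw [hM', Matrix.map_mul, Matrix.map_mul, liftM_map, liftM_map, hM]
    congr 2
    rw [Matrix.diagonal_map (by simp)]
    rfl
  have hPP : liftM A P hAP * liftM A P⁻¹ hAP' = 1 := by
    apply map_inj
    rw [Matrix.map_mul, liftM_map, liftM_map, Matrix.mul_nonsing_inv _ hPu,
      Matrix.map_one _ (by simp) (by simp)]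
  have hQQ : liftM A Q hAQ * liftM A Q⁻¹ hAQ' = 1 := by
    apply map_inj
    rw [Matrix.map_mul, liftM_map, liftM_map, Matrix.mul_nonsing_inv _ hQu,
      Matrix.map_one _ (by simp) (by simp)]
  have hPP2 : IsUnit ((liftM A P hAP).map f).det := by
    have := congrArg (fun N : Matrix (Fin n) (Fin n) A => (N.map f).det) hPP
    simp only [Matrix.map_mul, Matrix.det_mul, Matrix.map_one _ (map_zero f) (map_one f),
      Matrix.det_one] at this
    exact IsUnit.of_mul_eq_one _ this
  have hQQ2 : IsUnit ((liftM A Q hAQ).map f).det := by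
    have := congrArg (fun N : Matrix (Fin n) (Fin n) A => (N.map f).det) hQQ
    simp only [Matrix.map_mul, Matrix.det_mul, Matrix.map_one _ (map_zero f) (map_one f),
      Matrix.det_one] at this
    exact IsUnit.of_mul_eq_one _ this
  have h2 : M'.map f = (liftM A P hAP).map f * diagonal (fun i => f (D' i)) *
      (liftM A Q hAQ).map f := by
    rw [h1, Matrix.map_mul, Matrix.map_mul, Matrix.diagonal_map (map_zero f)]
  have h3 : M.rank = (diagonal D).rank := by
    rw [hM, Matrix.rank_mul_eq_left_of_isUnit_det _ _ hQu,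
      Matrix.rank_mul_eq_right_of_isUnit_det _ _ hPu]
  rw [h2, Matrix.rank_mul_eq_left_of_isUnit_det _ _ hQQ2,
    Matrix.rank_mul_eq_right_of_isUnit_det _ _ hPP2, h3, Matrix.rank_diagonal,
    Matrix.rank_diagonal]
  apply Fintype.card_congr
  apply Equiv.subtypeEquivRight
  intro i
  constructor
  · intro h h0
    apply h
    have : D' i = 0 := Subtype.ext h0
    rw [this, map_zero]
  · intro h h0
    have h4 : D' i * ⟨(D i)⁻¹, hAD' i⟩ = 1 := by
      apply Subtype.ext
      change D i * (D i)⁻¹ = 1
      exact mul_inv_cancel₀ h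
    have h5 := congrArg f h4
    rw [map_mul, h0, zero_mul, map_one] at h5
    exact zero_ne_one h5

end

end Pool.Agent.W_MP_f2b0dc_al
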