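import Pool.Agent.W_MP_f2b0dc_al.Final
import Pool.Agent.W_MP_f2b0dc_al.Spec

set_option maxSynthPendingDepth 3
set_option linter.unusedSectionVars false

namespace Pool.Agent.W_MP_f2b0dc_al

open Matrix

universe u w

section RankMetric

variable {k : Type u} [Field k] {n : ℕ}

lemma rank_eq_finrank (A : Matrix (Fin n) (Fin n) k) :
    A.rank = Module.finrank k (LinearMap.range A.mulVecLin) := rfl

lemma rank_eq_zero_iff (A : Matrix (Fin n) (Fin n) k) : A.rank = 0 ↔ A = 0 := by
  constructor
  · intro h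
    rw [rank_eq_finrank, Submodule.finrank_eq_zero, LinearMap.range_eq_bot] at h
    ext i j
    have := congrFun (LinearMap.congr_fun h (Pi.single j 1)) i
    simpa using this
  · rintro rfl
    exact Matrix.rank_zero

lemma rank_neg' (A : Matrix (Fin n) (Fin n) k) : (-A).rank = A.rank := by
  rw [rank_eq_finrank, rank_eq_finrank]
  have : LinearMap.range (-A).mulVecLin = LinearMap.range A.mulVecLin := by
    ext y
    constructor
    · rintro ⟨x, rfl⟩
      exact ⟨-x, by simp [Matrix.mulVec_neg]⟩
    · rintro ⟨x, rfl⟩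
      exact ⟨-x, by simp [Matrix.mulVec_neg]⟩
  rw [this]

lemma rank_add_le' (A B : Matrix (Fin n) (Fin n) k) : (A + B).rank ≤ A.rank + B.rank := by
  rw [rank_eq_finrank, rank_eq_finrank, rank_eq_finrank]
  refine le_trans (Submodule.finrank_mono ?_) (Submodule.finrank_add_le_finrank_add_finrank _ _)
  rintro y ⟨x, rfl⟩
  rw [Matrix.mulVecLin_apply, Matrix.add_mulVec]
  exact Submodule.add_mem_sup ⟨x, rfl⟩ ⟨x, rfl⟩

/-- the rank metric -/
noncomputable def rkd (c : ℝ) (a b : GL (Fin n) k) : ℝ :=
  ((a.val - b.val : Matrix (Fin n) (Fin n) k).rank : ℝ) / c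

lemma isBiInvMetric_rkd {c : ℝ} (hc : 0 < c) :
    IsBiInvMetric (rkd c : GL (Fin n) k → GL (Fin n) k → ℝ) where
  eq_zero a b := by
    unfold rkd
    rw [div_eq_zero_iff]
    constructor
    · rintro (h | h)
      · have := (rank_eq_zero_iff _).1 (Nat.cast_eq_zero.1 h)
        exact Units.ext (sub_eq_zero.1 this)
      · exact absurd h hc.ne'
    · rintro rfl
      left
      rw [sub_self]
      simp [Matrix.rank_zero]
  symm a b := by
    unfold rkd
    rw [← neg_sub, rank_neg']
  triangle a b e := by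
    unfold rkd
    rw [← add_div]
    refine div_le_div_of_nonneg_right ?_ hc.le
    have h1 := rank_add_le' (a.val - b.val) (b.val - e.val)
    rw [sub_add_sub_cancel] at h1
    exact_mod_cast h1
  left x a b := by
    unfold rkd
    rw [Units.val_mul, Units.val_mul, ← mul_sub, Matrix.rank_mul_eq_right_of_isUnit_det]
    exact (Matrix.isUnit_iff_isUnit_det _).1 x.isUnit
  right x a b := by
    unfold rkd
    rw [Units.val_mul, Units.val_mul, ← sub_mul, Matrix.rank_mul_eq_left_of_isUnit_det]
    exact (Matrix.isUnit_iff_isUnit_det _).1 x.isUnit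

lemma rkd_span {c : ℝ} (hc : 0 < c) (S : Finset (GL (Fin n) k)) (x : GL (Fin n) k)
    (hx : x ∈ Subgroup.closure (S : Set (GL (Fin n) k))) : rkd c x 1 ≤ ∑ s ∈ S, rkd c s 1 := by
  classical
  -- a common subspace
  have key : ∀ T : Finset (GL (Fin n) k), ∃ W : Submodule k (Fin n → k),
      Module.finrank k W ≤ ∑ s ∈ T, (s.val - 1 : Matrix (Fin n) (Fin n) k).rank ∧
      ∀ s ∈ T, ∀ v, (s.val - 1 : Matrix (Fin n) (Fin n) k).mulVec v ∈ W := by
    intro T
    induction T using Finset.induction_on with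
    | empty => exact ⟨⊥, by simp, by simp⟩
    | insert a T ha ih =>
      obtain ⟨W, h1, h2⟩ := ih
      refine ⟨LinearMap.range (a.val - 1 : Matrix (Fin n) (Fin n) k).mulVecLin ⊔ W, ?_, ?_⟩
      · rw [Finset.sum_insert ha]
        exact (Submodule.finrank_add_le_finrank_add_finrank _ _).trans (Nat.add_le_add le_rfl h1)
      · intro s hs v
        rcases Finset.mem_insert.1 hs with rfl | hs
        · exact Submodule.mem_sup_left ⟨v, rfl⟩
        · exact Submodule.mem_sup_right (h2 s hs v)
  obtain ⟨W, h1, h2⟩ := key S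
  have h3 : ∀ v, (x.val - 1 : Matrix (Fin n) (Fin n) k).mulVec v ∈ W := by
    induction hx using Subgroup.closure_induction with
    | mem y hy => exact h2 y hy
    | one => intro v; simp
    | mul y z _ _ hy hz =>
      intro v
      have e : (((y * z : GL (Fin n) k)).val - 1 : Matrix (Fin n) (Fin n) k).mulVec v =
          (y.val - 1 : Matrix (Fin n) (Fin n) k).mulVec (z.val.mulVec v) +
            (z.val - 1 : Matrix (Fin n) (Fin n) k).mulVec v := by
        rw [Units.val_mul, Matrix.sub_mulVec, Matrix.sub_mulVec, Matrix.sub_mulVec,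
          Matrix.one_mulVec, Matrix.one_mulVec, ← Matrix.mulVec_mulVec]
        abel
      rw [e]
      exact W.add_mem (hy _) (hz _)
    | inv y _ hy =>
      intro v
      have e : (((y⁻¹ : GL (Fin n) k)).val - 1 : Matrix (Fin n) (Fin n) k).mulVec v =
          -((y.val - 1 : Matrix (Fin n) (Fin n) k).mulVec ((y⁻¹ : GL (Fin n) k).val.mulVec v)) := by
        rw [Matrix.sub_mulVec, Matrix.sub_mulVec, Matrix.one_mulVec, Matrix.one_mulVec,
          Matrix.mulVec_mulVec, ← Units.val_mul, mul_inv_cancel, Units.val_one,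
          Matrix.one_mulVec]
        abel
      rw [e]
      exact W.neg_mem (hy _)
  have h4 : (x.val - 1 : Matrix (Fin n) (Fin n) k).rank ≤ Module.finrank k W := by
    rw [rank_eq_finrank]
    apply Submodule.finrank_mono
    rintro y ⟨v, rfl⟩
    exact h3 v
  unfold rkd
  rw [← Finset.sum_div]
  refine div_le_div_of_nonneg_right ?_ hc.le
  rw [Units.val_one, ← Nat.cast_sum]
  exact_mod_cast h4.trans h1

end RankMetric

/-- Linear sofic groups over any field are span-sofic. -/
theorem spanSofic_of_linearSofic (K : Type u) [Field K] (G : Type w) [Group G]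
    (h : LinearSofic K G) : SpanSofic G := by
  classical
  obtain ⟨δ, hδ, h⟩ := h
  intro F ε hε
  obtain ⟨c, hc, hcF⟩ := exists_pos_lower (F.filter (fun g => g ≠ 1)) δ
    (fun a ha => hδ a (Finset.mem_filter.1 ha).2)
  obtain ⟨n, φ, hn, h1, h2⟩ := h F (ε * c) (by positivity)
  choose T hT using fun M : Matrix (Fin n) (Fin n) K => exists_rank_spec M
  obtain ⟨A, k, _, _, f, hA⟩ := exists_spec
    (F.biUnion (fun g => entries (φ g).val ∪ entries (φ g)⁻¹.val ∪ T ((φ g).val - 1) ∪
      F.biUnion (fun h => T ((φ (g * h)).val - (φ g).val * (φ h).val))))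
  have hA1 : ∀ g ∈ F, ∀ i j, (φ g).val i j ∈ A := by
    intro g hg i j
    apply hA
    refine Finset.mem_biUnion.2 ⟨g, hg, ?_⟩
    simp only [Finset.mem_union]
    exact Or.inl (Or.inl (Or.inl (mem_entries _ i j)))
  have hA2 : ∀ g ∈ F, ∀ i j, (φ g)⁻¹.val i j ∈ A := by
    intro g hg i j
    apply hA
    refine Finset.mem_biUnion.2 ⟨g, hg, ?_⟩
    simp only [Finset.mem_union]
    exact Or.inl (Or.inl (Or.inr (mem_entries _ i j)))
  have hA3 : ∀ g ∈ F, ∀ x ∈ T ((φ g).val - 1), x ∈ A := by
    intro g hg x hx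
    apply hA
    refine Finset.mem_biUnion.2 ⟨g, hg, ?_⟩
    simp only [Finset.mem_union]
    exact Or.inl (Or.inr hx)
  have hA4 : ∀ g ∈ F, ∀ h ∈ F, ∀ x ∈ T ((φ (g * h)).val - (φ g).val * (φ h).val), x ∈ A := by
    intro g hg h hh x hx
    apply hA
    refine Finset.mem_biUnion.2 ⟨g, hg, ?_⟩
    simp only [Finset.mem_union]
    exact Or.inr (Finset.mem_biUnion.2 ⟨h, hh, hx⟩)
  -- the specialised matrices
  have hex : ∀ g, ∃ x : GL (Fin n) k, ∀ hg : g ∈ F,
      x.val = (liftM A (φ g).val (hA1 g hg)).map f := by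
    intro g
    by_cases hg : g ∈ F
    · have e1 : liftM A (φ g).val (hA1 g hg) * liftM A (φ g)⁻¹.val (hA2 g hg) = 1 := by
        apply map_inj
        rw [Matrix.map_mul, liftM_map, liftM_map, ← Units.val_mul, mul_inv_cancel,
          Units.val_one, Matrix.map_one _ (by simp) (by simp)]
      have e2 : liftM A (φ g)⁻¹.val (hA2 g hg) * liftM A (φ g).val (hA1 g hg) = 1 := by
        apply map_inj
        rw [Matrix.map_mul, liftM_map, liftM_map, ← Units.val_mul, inv_mul_cancel,
          Units.val_one, Matrix.map_one _ (by simp) (by simp)]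
      refine ⟨⟨(liftM A (φ g).val (hA1 g hg)).map f, (liftM A (φ g)⁻¹.val (hA2 g hg)).map f,
        ?_, ?_⟩, fun _ => rfl⟩
      · rw [← Matrix.map_mul, e1, Matrix.map_one _ (map_zero f) (map_one f)]
      · rw [← Matrix.map_mul, e2, Matrix.map_one _ (map_zero f) (map_one f)]
    · exact ⟨1, fun hg' => absurd hg' hg⟩
  choose ρ hρ using hex
  have hncpos : (0 : ℝ) < n * c := by
    have : (0 : ℝ) < n := by exact_mod_cast hn
    positivity
  have hnpos : (0 : ℝ) < n := by exact_mod_cast hn
  have : Finite (GL (Fin n) k) := by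
    have : Finite (Matrix (Fin n) (Fin n) k) := by
      unfold Matrix; infer_instance
    exact Finite.of_injective (fun x : GL (Fin n) k => x.val) Units.val_injective
  refine transport (F := F) (ε := ε) (H := GL (Fin n) k) (rkd (n * c)) ρ
    (isBiInvMetric_rkd hncpos) (rkd_span hncpos) ?_ ?_
  · intro g hg h hh hgh
    have e : (ρ (g * h)).val - (ρ g * ρ h).val =
        (liftM A (φ (g * h)).val (hA1 _ hgh) -
          liftM A (φ g).val (hA1 _ hg) * liftM A (φ h).val (hA1 _ hh)).map f := by
      rw [Units.val_mul, hρ _ hgh, hρ _ hg, hρ _ hh, ← Matrix.map_mul,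
        Matrix.map_sub _ (map_sub f)]
    have e2 := hT ((φ (g * h)).val - (φ g).val * (φ h).val) A (hA4 g hg h hh) k f
      (liftM A (φ (g * h)).val (hA1 _ hgh) -
          liftM A (φ g).val (hA1 _ hg) * liftM A (φ h).val (hA1 _ hh)) (by
        rw [Matrix.map_sub _ (map_sub A.subtype), Matrix.map_mul, liftM_map, liftM_map,
          liftM_map])
    unfold rkd
    rw [e, e2, div_le_iff₀ hncpos]
    have := h1 g hg h hh hgh
    linarith
  · intro g hg hg1
    have e : (ρ g).val - (1 : GL (Fin n) k).val =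
        (liftM A (φ g).val (hA1 _ hg) - 1).map f := by
      rw [Units.val_one, hρ _ hg, Matrix.map_sub _ (map_sub f),
        Matrix.map_one _ (map_zero f) (map_one f)]
    have e2 := hT ((φ g).val - 1) A (hA3 g hg) k f (liftM A (φ g).val (hA1 _ hg) - 1) (by
        rw [Matrix.map_sub _ (map_sub A.subtype), liftM_map,
          Matrix.map_one _ (by simp) (by simp)])
    unfold rkd
    rw [e, e2, le_div_iff₀ hncpos, one_mul]
    have h3 := h2 g hg hg1
    have h4 := hcF g (Finset.mem_filter.2 ⟨hg, hg1⟩)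
    nlinarith

end Pool.Agent.W_MP_f2b0dc_al
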