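import Pool.Agent.W_MP_f2b0dc_al.Sys

set_option maxSynthPendingDepth 3
set_option linter.unusedSectionVars false

namespace Pool.Agent.W_MP_f2b0dc_al

universe u w

variable {V : Type u} (X : SimpleGraph V) {Γ : V → Type w} [∀ v, Group (Γ v)]
variable (s : ∀ j : Finset (Σ v, Γ v) × ℕ, Sys Γ j.1 j.2)

/-- sequences which stay away from the small ones -/
def Big (x : ∀ i : Idx Γ, (M X s i).E) : Prop :=
  ∃ c : ℝ, 0 < c ∧ ∀ᶠ i in Filter.atTop, x i ∉ Sm X s i c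

variable {X s}

lemma Big.congr {x y : ∀ i : Idx Γ, (M X s i).E} (hx : Big X s x)
    (h : (QuotientGroup.mk x : Q X s) = QuotientGroup.mk y) : Big X s y := by
  obtain ⟨c, hc, hx⟩ := hx
  rw [QuotientGroup.eq] at h
  refine ⟨c / 2, by linarith, ?_⟩
  filter_upwards [hx, h (c / 2) (by linarith)] with i h1 h2 h3
  apply h1
  have h4 : x i = y i * ((x⁻¹ * y) i)⁻¹ := by simp
  rw [h4]
  have := Model.Small.mul h3 (Model.Small.inv h2)
  rwa [add_halves] at this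

lemma Big.conj {x : ∀ i : Idx Γ, (M X s i).E} (hx : Big X s x) (g : ∀ i : Idx Γ, (M X s i).E) :
    Big X s (g * x * g⁻¹) := by
  obtain ⟨c, hc, hx⟩ := hx
  refine ⟨c, hc, ?_⟩
  filter_upwards [hx] with i h1 h2
  apply h1
  have := Model.Small.conj h2 (g i)⁻¹
  simpa [mul_assoc] using this

/-- being represented by a big sequence -/
def Good (q : Q X s) : Prop := ∃ x, QuotientGroup.mk x = q ∧ Big X s x

lemma Good.big {x : ∀ i : Idx Γ, (M X s i).E} (h : Good (QuotientGroup.mk x : Q X s)) :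
    Big X s x := by
  obtain ⟨y, hy, hb⟩ := h
  exact hb.congr hy

lemma good_of_isConj {q q' : Q X s} (h : IsConj q q') (hq : Good q) : Good q' := by
  obtain ⟨g, hg⟩ := isConj_iff.1 h
  obtain ⟨x, rfl, hx⟩ := hq
  obtain ⟨y, rfl⟩ := QuotientGroup.mk_surjective g
  refine ⟨y * x * y⁻¹, ?_, hx.conj y⟩
  rw [← hg]
  rfl

variable (X s)

/-- number of `v`-letters -/
noncomputable def cnt (v : V) (ω : List (Σ v, Γ v)) : ℕ := by
  classical exact ω.countP (fun t => decide (t.1 = v))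

lemma cnt_append (v : V) (ω ω' : List (Σ v, Γ v)) : cnt v (ω ++ ω') = cnt v ω + cnt v ω' := by
  simp [cnt]

lemma cnt_cons_self (v : V) (g : Γ v) (ω : List (Σ v, Γ v)) :
    cnt v (⟨v, g⟩ :: ω) = cnt v ω + 1 := by
  simp [cnt]

lemma cnt_eq_zero {v : V} {ω : List (Σ v, Γ v)} (h : cnt v ω = 0) : ∀ t ∈ ω, t.1 ≠ v := by
  classical
  intro t ht
  simp only [cnt, List.countP_eq_zero] at h
  simpa using h t ht

lemma exists_of_cnt_pos {v : V} {ω : List (Σ v, Γ v)} (h : 0 < cnt v ω) :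
    ∃ α g β, ω = α ++ (⟨v, g⟩ : Σ v, Γ v) :: β := by
  classical
  simp only [cnt, List.countP_pos_iff] at h
  obtain ⟨⟨v', g⟩, ht, hv⟩ := h
  simp only [decide_eq_true_eq] at hv
  subst hv
  obtain ⟨α, β, rfl⟩ := List.append_of_mem ht
  exact ⟨α, g, β, rfl⟩

/-- the letters in the link of `v` -/
noncomputable def lkw (v : V) (ω : List (Σ v, Γ v)) : List (Σ v, Γ v) := by
  classical exact ω.filter (fun t => decide (t.1 ∈ Model.lk X v))

lemma lkw_append (v : V) (ω ω' : List (Σ v, Γ v)) :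
    lkw X v (ω ++ ω') = lkw X v ω ++ lkw X v ω' := by
  simp [lkw]

lemma lkw_self (v : V) (g : Γ v) (ω : List (Σ v, Γ v)) :
    lkw X v (⟨v, g⟩ :: ω) = lkw X v ω := by
  simp [lkw]

lemma mem_lkw {v : V} {ω : List (Σ v, Γ v)} {t : Σ v, Γ v} (h : t ∈ lkw X v ω) :
    t ∈ ω ∧ X.Adj v t.1 := by
  simpa [lkw] using h

lemma cnt_lkw (v : V) (ω : List (Σ v, Γ v)) : cnt v (lkw X v ω) = 0 := by
  classical
  simp only [cnt, List.countP_eq_zero]
  intro t ht
  have := (mem_lkw X ht).2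
  simp only [decide_eq_true_eq]
  intro h
  rw [h] at this
  exact this.ne rfl

lemma rep_lkw (v : V) (ω : List (Σ v, Γ v)) (i : Idx Γ) :
    (M X s i).π (Model.lk X v) (rep X s ω i) = rep X s (lkw X v ω) i := by
  classical
  unfold rep
  rw [Model.π_ev]
  congr 1
  simp only [lkw, List.filter_map]
  rfl

lemma ofP_commute {u v : V} (h : X.Adj u v) (a : Γ u) (b : Γ v) :
    Commute (ofP X u a) (ofP X v b) := by
  have h1 : (QuotientGroup.mk (Monoid.CoprodI.of a * Monoid.CoprodI.of b *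
      (Monoid.CoprodI.of a)⁻¹ * (Monoid.CoprodI.of b)⁻¹) : GraphProduct X Γ) = 1 := by
    rw [QuotientGroup.eq_one_iff]
    exact Subgroup.subset_normalClosure ⟨u, v, h, a, b, rfl⟩
  have h2 : ofP X u a * ofP X v b * (ofP X u a)⁻¹ * (ofP X v b)⁻¹ = 1 := h1
  have h3 := mul_inv_eq_one.1 h2
  exact mul_inv_eq_iff_eq_mul.1 h3

lemma ofP_commute_val {v : V} (b : Γ v) (ω : List (Σ v, Γ v)) (h : ∀ t ∈ ω, X.Adj v t.1) :
    Commute (ofP X v b) (val X ω) := by
  induction ω with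
  | nil => simp
  | cons t ω ih =>
    rw [val_cons]
    exact (ofP_commute X (h t (by simp)) b t.2).mul_right
      (ih (fun t ht => h t (by simp [ht])))

lemma mem_invw {ω : List (Σ v, Γ v)} {t : Σ v, Γ v} (h : t ∈ invw ω) : ∃ t' ∈ ω, t'.1 = t.1 := by
  simp only [invw, List.mem_reverse, List.mem_map] at h
  obtain ⟨t', ht', rfl⟩ := h
  exact ⟨t', ht', rfl⟩

lemma cnt_invw_lkw (v : V) (ω : List (Σ v, Γ v)) : cnt v (invw (lkw X v ω)) = 0 := by
  classical
  simp only [cnt, List.countP_eq_zero]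
  intro t ht
  obtain ⟨t', ht', he⟩ := mem_invw ht
  have := (mem_lkw X ht').2
  simp only [decide_eq_true_eq]
  intro h
  rw [he, h] at this
  exact this.ne rfl

lemma rep_append (ω ω' : List (Σ v, Γ v)) :
    rep X s (ω ++ ω') = rep X s ω * rep X s ω' := by
  funext i
  simp [rep]

/-- The inductive core: a nontrivial word starting with a `v`-letter is big if all its corrected
prefixes are. -/
lemma big_of_prefixes (v : V) (g : Γ v) (ω : List (Σ v, Γ v))
    (h : ∀ w₁ b w₂, (⟨v, g⟩ :: ω : List (Σ v, Γ v)) = w₁ ++ ⟨v, b⟩ :: w₂ →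
      Big X s (rep X s (w₁ ++ [⟨v, b⟩]) * (rep X s (lkw X v (w₁ ++ [⟨v, b⟩])))⁻¹)) :
    Big X s (rep X s (⟨v, g⟩ :: ω)) := by
  classical
  set W : List (Σ v, Γ v) := ⟨v, g⟩ :: ω with hW
  -- uniform constant
  have key : ∀ k : ℕ, ∃ c : ℝ, 0 < c ∧ ∀ᶠ i : Idx Γ in Filter.atTop, ∀ p < k,
      (∃ w₁ b w₂, W = w₁ ++ ⟨v, b⟩ :: w₂ ∧ W.take p = w₁ ++ [⟨v, b⟩]) →
      (rep X s (W.take p) * (rep X s (lkw X v (W.take p)))⁻¹) i ∉ Sm X s i c := by
    intro k
    induction k with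
    | zero => exact ⟨1, one_pos, Filter.Eventually.of_forall (fun i p hp => absurd hp (by omega))⟩
    | succ k ih =>
      obtain ⟨c, hc, hev⟩ := ih
      by_cases hk : ∃ w₁ b w₂, W = w₁ ++ ⟨v, b⟩ :: w₂ ∧ W.take k = w₁ ++ [⟨v, b⟩]
      · obtain ⟨w₁, b, w₂, hw, ht⟩ := hk
        obtain ⟨c', hc', hev'⟩ := h w₁ b w₂ hw
        refine ⟨min c c', lt_min hc hc', ?_⟩
        filter_upwards [hev, hev'] with i h1 h2 p hp hpe hsm
        rcases Nat.lt_succ_iff_lt_or_eq.1 hp with hp' | rfl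
        · exact h1 p hp' hpe (Model.Small.mono (min_le_left _ _) hsm)
        · rw [ht] at hsm
          exact h2 (Model.Small.mono (min_le_right _ _) hsm)
      · refine ⟨c, hc, ?_⟩
        filter_upwards [hev] with i h1 p hp hpe
        rcases Nat.lt_succ_iff_lt_or_eq.1 hp with hp' | rfl
        · exact h1 p hp' hpe
        · exact absurd hpe hk
  obtain ⟨c, hc, hev⟩ := key (W.length + 1)
  refine ⟨c / 2, by linarith, ?_⟩
  rw [Filter.eventually_atTop] at hev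
  obtain ⟨a, ha⟩ := hev
  filter_upwards [Filter.eventually_ge_atTop (a.1, a.2 + 1),
    eventually_large {⟨v, g⟩} (W.length + 1) 0] with i hi hlarge hsm
  obtain ⟨⟨F, m⟩, k⟩ := i
  have hk : a.2 + 1 ≤ k := hi.2
  obtain ⟨k', rfl⟩ : ∃ k', k = k' + 1 := ⟨k - 1, by omega⟩
  have hge : a ≤ (((F, m), k') : Idx Γ) := ⟨hi.1, by
    change a.2 ≤ k'
    omega⟩
  have hv : v ∈ (s (F, m)).S := (s (F, m)).memS v g (hlarge.1 (by simp))
  have hm : W.length + 1 ≤ m := hlarge.2.1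
  have hsm' : ((mdl X (s (F, m)) k').step (s (F, m)).S (m + 1)).ev
      (⟨v, (s (F, m)).φ v g⟩ :: ω.map (fun t => ⟨t.1, (s (F, m)).φ t.1 t.2⟩)) ∈
      ((mdl X (s (F, m)) k').step (s (F, m)).S (m + 1)).Small (s (F, m)).ℓ (c / 2) := hsm
  obtain ⟨w₁', b', w₂', hw', hsmall⟩ := Model.lemmaB v hv _ _ (by
    simp only [List.length_map]
    simp only [hW, List.length_cons] at hm
    omega) hsm'
  rw [add_halves] at hsmall
  have hmap : W.map (fun t => (⟨t.1, (s (F, m)).φ t.1 t.2⟩ : Σ v, (s (F, m)).H v)) =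
      w₁' ++ ⟨v, b'⟩ :: w₂' := hw'
  obtain ⟨w₁, r, hWr, hw1, hr⟩ := List.map_eq_append_iff.1 hmap
  obtain ⟨t, w₂, hrt, htb, hw2⟩ := List.map_eq_cons_iff.1 hr
  obtain ⟨v'', b⟩ := t
  have hvv : v'' = v := congrArg Sigma.fst htb
  subst hvv
  have hWW : W = w₁ ++ ⟨v'', b⟩ :: w₂ := by rw [hWr, hrt]
  have htake : W.take (w₁.length + 1) = w₁ ++ [⟨v'', b⟩] := by
    rw [hWW, List.take_append]
    simp
  have hfin := ha (((F, m), k') : Idx Γ) hge (w₁.length + 1) (by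
    rw [hWW]; simp) ⟨w₁, b, w₂, hWW, htake⟩
  apply hfin
  rw [htake]
  have e1 : rep X s (w₁ ++ [⟨v'', b⟩]) (((F, m), k') : Idx Γ) =
      (mdl X (s (F, m)) k').ev (w₁' ++ [⟨v'', b'⟩]) := by
    unfold rep
    rw [List.map_append, hw1, List.map_cons, List.map_nil, htb]
  rw [Pi.mul_apply, Pi.inv_apply, ← rep_lkw, e1]
  exact hsmall

end Pool.Agent.W_MP_f2b0dc_al
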