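import Mathlib

set_option maxSynthPendingDepth 3

namespace Pool.Agent.W_MP_f2b0dc_al

universe u

set_option linter.unusedSectionVars false

/-- Semidirect product of an additive group by a group acting on it. -/
@[ext] structure SD (E M : Type*) where
  f : M
  x : E

namespace SD

variable {E M : Type*} [Group E] [AddCommGroup M] [DistribMulAction E M]

instance : Mul (SD E M) := ⟨fun a b => ⟨a.f + a.x • b.f, a.x * b.x⟩⟩
instance : One (SD E M) := ⟨⟨0, 1⟩⟩
instance : Inv (SD E M) := ⟨fun a => ⟨-(a.x⁻¹ • a.f), a.x⁻¹⟩⟩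

@[simp] lemma mul_f (a b : SD E M) : (a * b).f = a.f + a.x • b.f := rfl
@[simp] lemma mul_x (a b : SD E M) : (a * b).x = a.x * b.x := rfl
@[simp] lemma one_f : (1 : SD E M).f = 0 := rfl
@[simp] lemma one_x : (1 : SD E M).x = 1 := rfl
@[simp] lemma inv_f (a : SD E M) : (a⁻¹).f = -(a.x⁻¹ • a.f) := rfl
@[simp] lemma inv_x (a : SD E M) : (a⁻¹).x = a.x⁻¹ := rfl

instance : Group (SD E M) := Group.ofLeftAxioms
  (by intro a b c; ext <;> simp [mul_assoc, smul_add, mul_smul, add_assoc])
  (by intro a; ext <;> simp)
  (by intro a; ext <;> simp)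

/-- the projection to the acting group -/
def proj : SD E M →* E where
  toFun a := a.x
  map_one' := rfl
  map_mul' _ _ := rfl

@[simp] lemma proj_apply (a : SD E M) : proj a = a.x := rfl

/-- conjugate of `h` by the module element `m` -/
def conjM (m : M) : E →* SD E M where
  toFun h := ⟨m - h • m, h⟩
  map_one' := by ext <;> simp
  map_mul' a b := by ext <;> simp [mul_smul, smul_sub]

@[simp] lemma conjM_f (m : M) (h : E) : (conjM m h).f = m - h • m := rfl
@[simp] lemma conjM_x (m : M) (h : E) : (conjM m h).x = h := rfl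

lemma conjM_conj (m : M) (h : E) (t : SD E M) :
    t * conjM m h * t⁻¹ =
      ⟨(t.f + t.x • m) - (t.x * h * t.x⁻¹) • (t.f + t.x • m), t.x * h * t.x⁻¹⟩ := by
  ext
  · simp [mul_smul, smul_sub, smul_add]
    abel
  · simp

instance [Finite E] [Finite M] : Finite (SD E M) :=
  Finite.of_injective (fun a : SD E M => (a.f, a.x)) (by
    intro a b h
    simp only [Prod.mk.injEq] at h
    exact SD.ext h.1 h.2)

/-- functoriality -/
def map (α : M →+ M) (β : E →* E) (h : ∀ (x : E) (m : M), α (x • m) = β x • α m) :
    SD E M →* SD E M where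
  toFun a := ⟨α a.f, β a.x⟩
  map_one' := by ext <;> simp
  map_mul' a b := by ext <;> simp [h]

end SD

/-- Finite models of a graph product of groups `H v`. -/
structure Model {V : Type u} (X : SimpleGraph V) (H : V → Type) [∀ v, Group (H v)] where
  E : Type u
  [grp : Group E]
  [fin : Finite E]
  ψ : ∀ v, H v →* E
  comm : ∀ u v, X.Adj u v → ∀ a b, Commute (ψ u a) (ψ v b)
  p : ∀ v, E →* H v
  p_same : ∀ v a, p v (ψ v a) = a
  p_ne : ∀ u v, u ≠ v → ∀ a, p v (ψ u a) = 1
  π : Set V → (E →* E)
  π_mem : ∀ A v, v ∈ A → ∀ a, π A (ψ v a) = ψ v a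
  π_not_mem : ∀ A v, v ∉ A → ∀ a, π A (ψ v a) = 1

attribute [instance] Model.grp Model.fin

variable {V : Type u} {X : SimpleGraph V} {H : V → Type} [∀ v, Group (H v)]

open Classical in
/-- The base model: a finite direct product. -/
noncomputable def Model.base (X : SimpleGraph V) (S : Finset V) [∀ v, Finite (H v)]
    (hS : ∀ v, v ∉ S → Subsingleton (H v)) : Model X H where
  E := (v : S) → H v
  ψ v := if h : v ∈ S then MonoidHom.mulSingle (fun v : S => H v) ⟨v, h⟩ else 1
  comm := by
    intro u v huv a b
    by_cases hu : u ∈ S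
    · by_cases hv : v ∈ S
      · simp only [hu, hv, dif_pos]
        have hne : (⟨u, hu⟩ : S) ≠ ⟨v, hv⟩ := by
          intro h
          exact huv.ne (congrArg Subtype.val h)
        exact Pi.mulSingle_commute (f := fun v : S => H v) hne a b
      · simp [hv]
    · simp [hu]
  p v := if h : v ∈ S then Pi.evalMonoidHom (fun v : S => H v) ⟨v, h⟩ else 1
  p_same := by
    intro v a
    by_cases hv : v ∈ S
    · simp [hv]
    · have := hS v hv
      exact Subsingleton.elim _ _
  p_ne := by
    intro u v huv a
    by_cases hv : v ∈ S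
    · by_cases hu : u ∈ S
      · simp only [hu, hv, dif_pos]
        have hne : (⟨v, hv⟩ : S) ≠ ⟨u, hu⟩ := by
          intro h
          exact huv (congrArg Subtype.val h).symm
        simp [Pi.mulSingle_eq_of_ne hne]
      · simp [hu]
    · have := hS v hv
      exact Subsingleton.elim _ _
  π A :=
    { toFun := fun f s => if s.1 ∈ A then f s else 1
      map_one' := by ext s; simp
      map_mul' := by
        intro f g
        ext s
        by_cases h : s.1 ∈ A <;> simp [h] }
  π_mem := by
    intro A v hv a
    by_cases h : v ∈ S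
    · simp only [h, dif_pos]
      ext s
      by_cases hs : s = ⟨v, h⟩
      · subst hs
        simp [hv]
      · simp [Pi.mulSingle_eq_of_ne hs]
    · simp only [h, not_false_eq_true, dif_neg, MonoidHom.one_apply]
      exact map_one _
  π_not_mem := by
    intro A v hv a
    by_cases h : v ∈ S
    · simp only [h, dif_pos]
      ext s
      by_cases hs : s = ⟨v, h⟩
      · subst hs
        simp [hv]
      · simp [Pi.mulSingle_eq_of_ne hs]
    · simp only [h, not_false_eq_true, dif_neg, MonoidHom.one_apply]
      exact map_one _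

end Pool.Agent.W_MP_f2b0dc_al
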