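import Pool.Agent.W_MP_f2b0dc_al.Step

set_option maxSynthPendingDepth 3
set_option linter.unusedSectionVars false

namespace Pool.Agent.W_MP_f2b0dc_al

universe u

variable {V : Type u} {X : SimpleGraph V} {H : V → Type} [∀ v, Group (H v)]

/-- Lengths on the vertex groups with the span property. -/
structure Len (H : V → Type) [∀ v, Group (H v)] where
  ℓ : ∀ v, H v → ℝ
  nonneg : ∀ v a, 0 ≤ ℓ v a
  one : ∀ v, ℓ v 1 = 0
  conj : ∀ v a b, ℓ v (b * a * b⁻¹) = ℓ v a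
  span : ∀ v (S : Finset (H v)), ∀ x ∈ Subgroup.closure (S : Set (H v)), ℓ v x ≤ ∑ s ∈ S, ℓ v s

lemma sum_toFinset_le {α : Type*} [DecidableEq α] (f : α → ℝ) (hf : ∀ a, 0 ≤ f a) (l : List α) :
    ∑ s ∈ l.toFinset, f s ≤ (l.map f).sum := by
  induction l with
  | nil => simp
  | cons a l ih =>
    rw [List.toFinset_cons, List.map_cons, List.sum_cons]
    by_cases h : a ∈ l.toFinset
    · rw [Finset.insert_eq_of_mem h]
      linarith [hf a]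
    · rw [Finset.sum_insert h]
      linarith

lemma Len.span_list (ℓ : Len H) (v : V) (l : List (H v)) (x : H v)
    (hx : x ∈ Subgroup.closure {y | y ∈ l}) : ℓ.ℓ v x ≤ (l.map (ℓ.ℓ v)).sum := by
  classical
  refine le_trans (ℓ.span v l.toFinset x ?_) (sum_toFinset_le _ (ℓ.nonneg v) l)
  have : ((l.toFinset : Finset (H v)) : Set (H v)) = {y | y ∈ l} := by
    ext y; simp
  rw [this]
  exact hx

namespace Model

variable (𝔐 : Model X H) (ℓ : Len H)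

/-- the conjugates attached to a list -/
def conjs (l : List (Σ v, H v × 𝔐.E)) : Set 𝔐.E :=
  {y | ∃ t ∈ l, y = t.2.2 * 𝔐.ψ t.1 t.2.1 * t.2.2⁻¹}

/-- the cost of a list -/
def cost (ℓ : Len H) (l : List (Σ v, H v × 𝔐.E)) : ℝ := (l.map (fun t => ℓ.ℓ t.1 t.2.1)).sum

/-- the elements of cost at most `c` -/
def Small (c : ℝ) : Set 𝔐.E :=
  {x | ∃ l, 𝔐.cost ℓ l ≤ c ∧ x ∈ Subgroup.closure (𝔐.conjs l)}

variable {𝔐 ℓ}

lemma cost_nonneg (l : List (Σ v, H v × 𝔐.E)) : 0 ≤ 𝔐.cost ℓ l := by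
  apply List.sum_nonneg
  intro x hx
  simp only [List.mem_map] at hx
  obtain ⟨t, _, rfl⟩ := hx
  exact ℓ.nonneg _ _

lemma cost_append (l l' : List (Σ v, H v × 𝔐.E)) :
    𝔐.cost ℓ (l ++ l') = 𝔐.cost ℓ l + 𝔐.cost ℓ l' := by
  simp [cost]

lemma conjs_append_left (l l' : List (Σ v, H v × 𝔐.E)) : 𝔐.conjs l ⊆ 𝔐.conjs (l ++ l') := by
  rintro y ⟨t, ht, rfl⟩
  exact ⟨t, by simp [ht], rfl⟩

lemma conjs_append_right (l l' : List (Σ v, H v × 𝔐.E)) : 𝔐.conjs l' ⊆ 𝔐.conjs (l ++ l') := by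
  rintro y ⟨t, ht, rfl⟩
  exact ⟨t, by simp [ht], rfl⟩

lemma Small.nonneg {c : ℝ} {x : 𝔐.E} (h : x ∈ 𝔐.Small ℓ c) : 0 ≤ c := by
  obtain ⟨l, hl, _⟩ := h
  exact (cost_nonneg l).trans hl

lemma Small.mono {c c' : ℝ} (hc : c ≤ c') {x : 𝔐.E} (h : x ∈ 𝔐.Small ℓ c) : x ∈ 𝔐.Small ℓ c' := by
  obtain ⟨l, hl, hx⟩ := h
  exact ⟨l, hl.trans hc, hx⟩

lemma Small.one {c : ℝ} (hc : 0 ≤ c) : (1 : 𝔐.E) ∈ 𝔐.Small ℓ c :=
  ⟨[], by simpa [cost] using hc, one_mem _⟩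

lemma Small.inv {c : ℝ} {x : 𝔐.E} (h : x ∈ 𝔐.Small ℓ c) : x⁻¹ ∈ 𝔐.Small ℓ c := by
  obtain ⟨l, hl, hx⟩ := h
  exact ⟨l, hl, inv_mem hx⟩

lemma Small.mul {c c' : ℝ} {x y : 𝔐.E} (h : x ∈ 𝔐.Small ℓ c) (h' : y ∈ 𝔐.Small ℓ c') :
    x * y ∈ 𝔐.Small ℓ (c + c') := by
  obtain ⟨l, hl, hx⟩ := h
  obtain ⟨l', hl', hy⟩ := h'
  refine ⟨l ++ l', ?_, ?_⟩
  · rw [cost_append]; linarith
  · exact mul_mem (Subgroup.closure_mono (conjs_append_left l l') hx)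
      (Subgroup.closure_mono (conjs_append_right l l') hy)

lemma Small.conj {c : ℝ} {x : 𝔐.E} (h : x ∈ 𝔐.Small ℓ c) (g : 𝔐.E) :
    g * x * g⁻¹ ∈ 𝔐.Small ℓ c := by
  obtain ⟨l, hl, hx⟩ := h
  refine ⟨l.map (fun t => ⟨t.1, (t.2.1, g * t.2.2)⟩), ?_, ?_⟩
  · simpa [cost, Function.comp_def] using hl
  · have : Subgroup.closure (𝔐.conjs l) ≤
        (Subgroup.closure (𝔐.conjs (l.map (fun t => ⟨t.1, (t.2.1, g * t.2.2)⟩)))).comap
          (MulAut.conj g).toMonoidHom := by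
      rw [Subgroup.closure_le]
      rintro y ⟨t, ht, rfl⟩
      apply Subgroup.subset_closure
      refine ⟨⟨t.1, (t.2.1, g * t.2.2)⟩, List.mem_map.2 ⟨t, ht, rfl⟩, ?_⟩
      simp [mul_assoc]
    simpa using this hx

lemma small_ψ (v : V) (a : H v) : 𝔐.ψ v a ∈ 𝔐.Small ℓ (ℓ.ℓ v a) := by
  refine ⟨[⟨v, (a, 1)⟩], by simp [cost], ?_⟩
  apply Subgroup.subset_closure
  exact ⟨⟨v, (a, 1)⟩, by simp, by simp⟩

lemma small_span {c : 𝔐.E → ℝ} (S : Finset 𝔐.E) (hS : ∀ s ∈ S, s ∈ 𝔐.Small ℓ (c s)) {x : 𝔐.E}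
    (hx : x ∈ Subgroup.closure (S : Set 𝔐.E)) : x ∈ 𝔐.Small ℓ (∑ s ∈ S, c s) := by
  classical
  have key : ∀ T : Finset 𝔐.E, T ⊆ S → ∃ l, 𝔐.cost ℓ l ≤ ∑ s ∈ T, c s ∧
      ∀ s ∈ T, s ∈ Subgroup.closure (𝔐.conjs l) := by
    intro T
    induction T using Finset.induction_on with
    | empty =>
      intro _
      exact ⟨[], by simp [cost], by simp⟩
    | insert a T ha ih =>
      intro hT
      obtain ⟨l, hl, hl'⟩ := ih (fun t ht => hT (Finset.mem_insert_of_mem ht))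
      obtain ⟨l₁, hl₁, hl₁'⟩ := hS a (hT (Finset.mem_insert_self a T))
      refine ⟨l₁ ++ l, ?_, ?_⟩
      · rw [cost_append, Finset.sum_insert ha]; linarith
      · intro s hs
        rcases Finset.mem_insert.1 hs with rfl | hs
        · exact Subgroup.closure_mono (conjs_append_left _ _) hl₁'
        · exact Subgroup.closure_mono (conjs_append_right _ _) (hl' s hs)
  obtain ⟨l, hl, hl'⟩ := key S (Finset.Subset.refl S)
  refine ⟨l, hl, ?_⟩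
  have : Subgroup.closure (S : Set 𝔐.E) ≤ Subgroup.closure (𝔐.conjs l) := by
    rw [Subgroup.closure_le]
    exact hl'
  exact this hx

lemma π_closure_conjs (A : Set V) (l : List (Σ v, H v × 𝔐.E)) {x : 𝔐.E}
    (hx : x ∈ Subgroup.closure (𝔐.conjs l)) :
    𝔐.π A x ∈ 𝔐.Small ℓ (𝔐.cost ℓ l) := by
  refine ⟨l.map (fun t => ⟨t.1, (t.2.1, 𝔐.π A t.2.2)⟩), ?_, ?_⟩
  · simp [cost, Function.comp_def]
  · have : Subgroup.closure (𝔐.conjs l) ≤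
        (Subgroup.closure (𝔐.conjs (l.map (fun t => ⟨t.1, (t.2.1, 𝔐.π A t.2.2)⟩)))).comap
          (𝔐.π A) := by
      rw [Subgroup.closure_le]
      rintro y ⟨t, ht, rfl⟩
      by_cases h : t.1 ∈ A
      · apply Subgroup.subset_closure
        refine ⟨⟨t.1, (t.2.1, 𝔐.π A t.2.2)⟩, List.mem_map.2 ⟨t, ht, rfl⟩, ?_⟩
        simp [𝔐.π_mem A _ h]
      · simp [𝔐.π_not_mem A _ h]
    exact this hx

lemma small_π (A : Set V) {c : ℝ} {x : 𝔐.E} (h : x ∈ 𝔐.Small ℓ c) :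
    𝔐.π A x ∈ 𝔐.Small ℓ c := by
  obtain ⟨l, hl, hx⟩ := h
  exact Small.mono hl (π_closure_conjs A l hx)

lemma small_p (v : V) {c : ℝ} {x : 𝔐.E} (h : x ∈ 𝔐.Small ℓ c) : ℓ.ℓ v (𝔐.p v x) ≤ c := by
  obtain ⟨l, hl, hx⟩ := h
  let l' : List (H v) := l.map (fun t => 𝔐.p v (t.2.2 * 𝔐.ψ t.1 t.2.1 * t.2.2⁻¹))
  have h1 : 𝔐.p v x ∈ Subgroup.closure {y | y ∈ l'} := by
    have : Subgroup.closure (𝔐.conjs l) ≤ (Subgroup.closure {y | y ∈ l'}).comap (𝔐.p v) := by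
      rw [Subgroup.closure_le]
      rintro y ⟨t, ht, rfl⟩
      exact Subgroup.subset_closure (List.mem_map.2 ⟨t, ht, rfl⟩)
    exact this hx
  refine (ℓ.span_list v l' _ h1).trans (le_trans ?_ hl)
  unfold cost
  simp only [l', List.map_map]
  apply List.sum_le_sum
  rintro ⟨u, a, b⟩ _
  simp only [Function.comp_apply, map_mul, map_inv, ℓ.conj]
  by_cases huv : u = v
  · subst huv
    rw [𝔐.p_same]
  · rw [𝔐.p_ne u v huv, ℓ.one]
    exact ℓ.nonneg _ _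

/-- evaluation of a word -/
def ev (𝔐 : Model X H) (w : List (Σ v, H v)) : 𝔐.E := (w.map (fun t => 𝔐.ψ t.1 t.2)).prod

@[simp] lemma ev_nil : 𝔐.ev [] = 1 := rfl
@[simp] lemma ev_cons (t : Σ v, H v) (w : List (Σ v, H v)) :
    𝔐.ev (t :: w) = 𝔐.ψ t.1 t.2 * 𝔐.ev w := by simp [ev]
@[simp] lemma ev_append (w w' : List (Σ v, H v)) : 𝔐.ev (w ++ w') = 𝔐.ev w * 𝔐.ev w' := by
  simp [ev]

open Classical in
lemma π_ev (A : Set V) (w : List (Σ v, H v)) :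
    𝔐.π A (𝔐.ev w) = 𝔐.ev (w.filter (fun t => t.1 ∈ A)) := by
  induction w with
  | nil => simp
  | cons t w ih =>
    rw [ev_cons, map_mul, ih]
    by_cases h : t.1 ∈ A
    · rw [List.filter_cons_of_pos (by simpa using h), ev_cons, 𝔐.π_mem A _ h]
    · rw [List.filter_cons_of_neg (by simpa using h), 𝔐.π_not_mem A _ h, one_mul]

end Model

end Pool.Agent.W_MP_f2b0dc_al
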