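import Pool.Agent.W_MP_f2b0dc_al.Model

set_option maxSynthPendingDepth 3
set_option linter.unusedSectionVars false

namespace Pool.Agent.W_MP_f2b0dc_al

universe u

variable {V : Type u} {X : SimpleGraph V} {H : V → Type} [∀ v, Group (H v)]

namespace Model

variable (𝔐 : Model X H)

/-- the subgroup generated by the neighbours of `v` -/
def L (v : V) : Subgroup 𝔐.E :=
  Subgroup.closure {y | ∃ u, X.Adj v u ∧ ∃ a, y = 𝔐.ψ u a}

lemma ψ_mem_L {u v : V} (h : X.Adj v u) (a : H u) : 𝔐.ψ u a ∈ 𝔐.L v :=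
  Subgroup.subset_closure ⟨u, h, a, rfl⟩

lemma π_L (A : Set V) (v : V) {x : 𝔐.E} (hx : x ∈ 𝔐.L v) : 𝔐.π A x ∈ 𝔐.L v := by
  induction hx using Subgroup.closure_induction with
  | mem y hy =>
    obtain ⟨u, hu, a, rfl⟩ := hy
    by_cases h : u ∈ A
    · rw [𝔐.π_mem A u h]
      exact 𝔐.ψ_mem_L hu a
    · rw [𝔐.π_not_mem A u h]
      exact one_mem _
  | one => simp
  | mul x y _ _ hx hy => rw [map_mul]; exact mul_mem hx hy
  | inv x _ hx => rw [map_inv]; exact inv_mem hx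

/-- the neighbours of `v` -/
abbrev lk (X : SimpleGraph V) (v : V) : Set V := {u | X.Adj v u}

lemma π_lk_eq (v : V) {x : 𝔐.E} (hx : x ∈ 𝔐.L v) : 𝔐.π (lk X v) x = x := by
  induction hx using Subgroup.closure_induction with
  | mem y hy =>
    obtain ⟨u, hu, a, rfl⟩ := hy
    exact 𝔐.π_mem _ u hu a
  | one => simp
  | mul x y _ _ hx hy => rw [map_mul, hx, hy]
  | inv x _ hx => rw [map_inv, hx]

/-- the set of lamps -/
abbrev Ω (S : Finset V) : Type u := Σ v : S, 𝔐.E ⧸ 𝔐.L v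

/-- the lamp configurations -/
abbrev Mod (S : Finset V) (n : ℕ) : Type u := 𝔐.Ω S →₀ ZMod n

noncomputable instance (S : Finset V) (n : ℕ) : DistribMulAction 𝔐.E (𝔐.Mod S n) :=
  Finsupp.comapDistribMulAction

lemma smul_single (S : Finset V) (n : ℕ) (x : 𝔐.E) (ω : 𝔐.Ω S) (t : ZMod n) :
    x • (Finsupp.single ω t : 𝔐.Mod S n) = Finsupp.single (x • ω) t :=
  Finsupp.comapSMul_single x ω t

open Classical in
/-- the lamp at the base coset -/
noncomputable def χ (S : Finset V) (n : ℕ) (v : V) : 𝔐.Mod S n :=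
  if h : v ∈ S then Finsupp.single ⟨⟨v, h⟩, ((1 : 𝔐.E) : 𝔐.E ⧸ 𝔐.L v)⟩ 1 else 0

lemma smul_χ (S : Finset V) (n : ℕ) (v : V) {x : 𝔐.E} (hx : x ∈ 𝔐.L v) :
    x • 𝔐.χ S n v = 𝔐.χ S n v := by
  unfold χ
  by_cases h : v ∈ S
  · simp only [h, dif_pos]
    rw [smul_single]
    congr 1
    have : x • ((1 : 𝔐.E) : 𝔐.E ⧸ 𝔐.L v) = ((1 : 𝔐.E) : 𝔐.E ⧸ 𝔐.L v) := by
      rw [MulAction.Quotient.smul_coe]
      rw [QuotientGroup.eq]
      simpa using hx
    exact Sigma.ext rfl (heq_of_eq this)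
  · simp [h]

/-- the self-map of the cosets induced by the retraction -/
def cosetMap (A : Set V) (v : V) : 𝔐.E ⧸ 𝔐.L v → 𝔐.E ⧸ 𝔐.L v :=
  Quotient.map' (𝔐.π A) (by
    intro a b h
    rw [QuotientGroup.leftRel_apply] at h ⊢
    rw [← map_inv, ← map_mul]
    exact 𝔐.π_L A v h)

lemma cosetMap_coe (A : Set V) (v : V) (x : 𝔐.E) :
    𝔐.cosetMap A v (x : 𝔐.E ⧸ 𝔐.L v) = ((𝔐.π A x : 𝔐.E) : 𝔐.E ⧸ 𝔐.L v) := rfl

lemma cosetMap_smul (A : Set V) (v : V) (x : 𝔐.E) (c : 𝔐.E ⧸ 𝔐.L v) :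
    𝔐.cosetMap A v (x • c) = 𝔐.π A x • 𝔐.cosetMap A v c := by
  induction c using QuotientGroup.induction_on with
  | H y =>
    rw [MulAction.Quotient.smul_coe, cosetMap_coe, cosetMap_coe, MulAction.Quotient.smul_coe]
    simp

open Classical in
/-- the endomorphism of the lamp configurations induced by the retraction -/
noncomputable def α (S : Finset V) (n : ℕ) (A : Set V) : 𝔐.Mod S n →+ 𝔐.Mod S n :=
  Finsupp.liftAddHom (fun ω => if ω.1.1 ∈ A then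
    Finsupp.singleAddHom (⟨ω.1, 𝔐.cosetMap A ω.1 ω.2⟩ : 𝔐.Ω S) else 0)

lemma α_single (S : Finset V) (n : ℕ) (A : Set V) (ω : 𝔐.Ω S) (t : ZMod n) (h : ω.1.1 ∈ A) :
    𝔐.α S n A (Finsupp.single ω t) = Finsupp.single ⟨ω.1, 𝔐.cosetMap A ω.1 ω.2⟩ t := by
  simp [α, h]

lemma α_single' (S : Finset V) (n : ℕ) (A : Set V) (ω : 𝔐.Ω S) (t : ZMod n) (h : ω.1.1 ∉ A) :
    𝔐.α S n A (Finsupp.single ω t) = 0 := by
  simp [α, h]

lemma α_smul (S : Finset V) (n : ℕ) (A : Set V) (x : 𝔐.E) (m : 𝔐.Mod S n) :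
    𝔐.α S n A (x • m) = 𝔐.π A x • 𝔐.α S n A m := by
  induction m using Finsupp.induction_linear with
  | zero => simp
  | add f g hf hg => rw [smul_add, map_add, hf, hg, map_add, smul_add]
  | single ω t =>
    rw [smul_single]
    by_cases h : ω.1.1 ∈ A
    · rw [α_single _ _ _ _ _ _ h, α_single _ _ _ _ _ _ (by exact h), smul_single]
      congr 1
      exact Sigma.ext rfl (heq_of_eq (𝔐.cosetMap_smul A ω.1 x ω.2))
    · rw [α_single' _ _ _ _ _ _ h, α_single' _ _ _ _ _ _ (by exact h), smul_zero]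

lemma α_χ (S : Finset V) (n : ℕ) (A : Set V) (v : V) (h : v ∈ A) :
    𝔐.α S n A (𝔐.χ S n v) = 𝔐.χ S n v := by
  unfold χ
  by_cases hS : v ∈ S
  · simp only [hS, dif_pos]
    rw [α_single _ _ _ _ _ _ (by exact h)]
    congr 1
    refine Sigma.ext rfl (heq_of_eq ?_)
    simp [cosetMap_coe]
  · simp [hS]

lemma α_χ' (S : Finset V) (n : ℕ) (A : Set V) (v : V) (h : v ∉ A) :
    𝔐.α S n A (𝔐.χ S n v) = 0 := by
  unfold χ
  by_cases hS : v ∈ S
  · simp only [hS, dif_pos]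
    rw [α_single' _ _ _ _ _ _ (by exact h)]
  · simp [hS]

/-- The next model: lamps indexed by cosets. -/
noncomputable def step (S : Finset V) (n : ℕ) [NeZero n] : Model X H where
  E := SD 𝔐.E (𝔐.Mod S n)
  fin := by
    have h1 : Finite (𝔐.Ω S) := inferInstance
    have h2 : Finite (𝔐.Ω S → ZMod n) := inferInstance
    have : Finite (𝔐.Ω S →₀ ZMod n) :=
      Finite.of_injective (fun f : 𝔐.Ω S →₀ ZMod n => (f : 𝔐.Ω S → ZMod n))
        DFunLike.coe_injective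
    infer_instance
  ψ v := (SD.conjM (𝔐.χ S n v)).comp (𝔐.ψ v)
  comm := by
    intro u v huv a b
    have ha := 𝔐.smul_χ S n v (𝔐.ψ_mem_L huv.symm a)
    have hb := 𝔐.smul_χ S n u (𝔐.ψ_mem_L huv b)
    have hc : 𝔐.ψ u a * 𝔐.ψ v b = 𝔐.ψ v b * 𝔐.ψ u a := 𝔐.comm u v huv a b
    refine SD.ext ?_ ?_
    · simp only [MonoidHom.comp_apply, SD.mul_f, SD.conjM_f, SD.conjM_x, smul_sub, ha, hb]
      rw [← mul_smul, ← mul_smul, hc, mul_smul, ha, ← hc, mul_smul, hb]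
      abel
    · simpa using hc
  p v := (𝔐.p v).comp SD.proj
  p_same v a := by simp [𝔐.p_same]
  p_ne u v h a := by simp [𝔐.p_ne u v h]
  π A := SD.map (𝔐.α S n A) (𝔐.π A) (𝔐.α_smul S n A)
  π_mem := by
    intro A v hv a
    refine SD.ext ?_ ?_
    · simp [SD.map, 𝔐.α_smul, 𝔐.α_χ S n A v hv, 𝔐.π_mem A v hv]
    · simp [SD.map, 𝔐.π_mem A v hv]
  π_not_mem := by
    intro A v hv a
    refine SD.ext ?_ ?_
    · simp [SD.map, 𝔐.α_smul, 𝔐.α_χ' S n A v hv, 𝔐.π_not_mem A v hv]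
    · simp [SD.map, 𝔐.π_not_mem A v hv]

end Model

end Pool.Agent.W_MP_f2b0dc_al
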