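import Pool.Agent.W_MP_f2b0dc_al.Defs
import Pool.Agent.W_MP_f2b0dc_al.LemmaB

set_option maxSynthPendingDepth 3
set_option linter.unusedSectionVars false

namespace Pool.Agent.W_MP_f2b0dc_al

universe u w

namespace IsBiInvMetric

variable {H : Type*} [Group H] {d : H → H → ℝ} (hd : IsBiInvMetric d)
include hd

lemma self (a : H) : d a a = 0 := (hd.eq_zero a a).2 rfl

lemma nonneg (a b : H) : 0 ≤ d a b := by
  have h1 := hd.triangle a b a
  rw [hd.self, hd.symm b a] at h1
  linarith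

lemma conj (a b : H) : d (b * a * b⁻¹) 1 = d a 1 := by
  have h1 : d (b * a * b⁻¹) 1 = d (b * a) b := by
    have := hd.right b (b * a * b⁻¹) 1
    rw [← this]; simp
  rw [h1]
  have := hd.left b a 1
  rw [mul_one] at this
  exact this

end IsBiInvMetric

variable {V : Type u} (X : SimpleGraph V) (Γ : V → Type w) [∀ v, Group (Γ v)]

/-- a system of approximations of the vertex groups -/
structure Sys (F : Finset (Σ v, Γ v)) (m : ℕ) where
  H : V → Type
  [grp : ∀ v, Group (H v)]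
  [fin : ∀ v, Finite (H v)]
  S : Finset V
  sub : ∀ v, v ∉ S → Subsingleton (H v)
  ℓ : Len H
  pos : ∀ v a, a ≠ 1 → 0 < ℓ.ℓ v a
  φ : ∀ v, Γ v → H v
  memS : ∀ v g, (⟨v, g⟩ : Σ v, Γ v) ∈ F → v ∈ S
  approx : ∀ v g h, (⟨v, g⟩ : Σ v, Γ v) ∈ F → (⟨v, h⟩ : Σ v, Γ v) ∈ F →
    (⟨v, g * h⟩ : Σ v, Γ v) ∈ F → ℓ.ℓ v ((φ v (g * h))⁻¹ * (φ v g * φ v h)) ≤ 1 / ((m : ℝ) + 1)
  sep : ∀ v g, (⟨v, g⟩ : Σ v, Γ v) ∈ F → g ≠ 1 → 1 ≤ ℓ.ℓ v (φ v g)

attribute [instance] Sys.grp Sys.fin

variable {Γ}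

lemma exists_sys (h : ∀ v, SpanSofic (Γ v)) (F : Finset (Σ v, Γ v)) (m : ℕ) :
    Nonempty (Sys Γ F m) := by
  classical
  have key : ∀ v, ∃ (H : Type) (_ : Group H) (_ : Finite H) (d : H → H → ℝ) (φ : Γ v → H),
      IsBiInvMetric d ∧
      (∀ S : Finset H, ∀ x ∈ Subgroup.closure (S : Set H), d x 1 ≤ ∑ s ∈ S, d s 1) ∧
      (∀ g h, (⟨v, g⟩ : Σ v, Γ v) ∈ F → (⟨v, h⟩ : Σ v, Γ v) ∈ F →
        (⟨v, g * h⟩ : Σ v, Γ v) ∈ F → d (φ (g * h)) (φ g * φ h) ≤ 1 / ((m : ℝ) + 1)) ∧
      (∀ g, (⟨v, g⟩ : Σ v, Γ v) ∈ F → g ≠ 1 → 1 ≤ d (φ g) 1) ∧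
      (v ∉ F.image Sigma.fst → Subsingleton H) := by
    intro v
    by_cases hv : v ∈ F.image Sigma.fst
    · have hpos : (0 : ℝ) < 1 / ((m : ℝ) + 1) := by positivity
      obtain ⟨H, g1, g2, d, φ, h1, h2, h3, h4⟩ := h v
        (F.preimage (Sigma.mk v) (by intro a _ b _ hab; simpa using hab)) _ hpos
      refine ⟨H, g1, g2, d, φ, h1, h2, ?_, ?_, fun h => absurd hv h⟩
      · intro g h hg hh hgh
        exact h3 g (Finset.mem_preimage.2 hg) h (Finset.mem_preimage.2 hh)
          (Finset.mem_preimage.2 hgh)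
      · intro g hg hg1
        exact h4 g (Finset.mem_preimage.2 hg) hg1
    · refine ⟨Unit, inferInstance, inferInstance, fun _ _ => 0, fun _ => 1, ?_, ?_, ?_, ?_, ?_⟩
      · constructor <;> simp
      · intro S x _; simp
      · intro g h _ _ _; positivity
      · intro g hg
        exact absurd (Finset.mem_image.2 ⟨_, hg, rfl⟩) hv
      · intro _; infer_instance
  choose H g1 g2 d φ h1 h2 h3 h4 h5 using key
  refine ⟨{ H := H, grp := g1, fin := g2, S := F.image Sigma.fst, sub := h5,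
            ℓ := ⟨fun v a => d v a 1, ?_, ?_, ?_, ?_⟩, pos := ?_, φ := φ, memS := ?_,
            approx := ?_, sep := h4 }⟩
  · intro v a; exact (h1 v).nonneg a 1
  · intro v; exact (h1 v).self 1
  · intro v a b; exact (h1 v).conj a b
  · intro v; exact h2 v
  · intro v a ha
    refine lt_of_le_of_ne ((h1 v).nonneg a 1) ?_
    intro h0
    exact ha (((h1 v).eq_zero a 1).1 h0.symm)
  · intro v g hg
    exact Finset.mem_image.2 ⟨_, hg, rfl⟩
  · intro v g h hg hh hgh
    have := h3 v g h hg hh hgh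
    have e : d v ((φ v (g * h))⁻¹ * (φ v g * φ v h)) 1 = d v (φ v (g * h)) (φ v g * φ v h) := by
      have := (h1 v).left (φ v (g * h)) ((φ v (g * h))⁻¹ * (φ v g * φ v h)) 1
      rw [mul_one, mul_inv_cancel_left] at this
      rw [← this, (h1 v).symm]
    change d v ((φ v (g * h))⁻¹ * (φ v g * φ v h)) 1 ≤ _
    rw [e]
    exact this

/-- the tower of models -/
noncomputable def mdl {F : Finset (Σ v, Γ v)} {m : ℕ} (s : Sys Γ F m) : ℕ → Model X s.H
  | 0 => Model.base X s.S s.sub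
  | i + 1 => (mdl s i).step s.S (m + 1)

variable (s : ∀ j : Finset (Σ v, Γ v) × ℕ, Sys Γ j.1 j.2)

/-- index type: system and level -/
abbrev Idx (Γ : V → Type w) := (Finset (Σ v, Γ v) × ℕ) × ℕ

/-- the model with a given index -/
noncomputable abbrev M (i : Idx Γ) : Model X (s i.1).H := mdl X (s i.1) i.2

/-- small elements with a given index -/
abbrev Sm (i : Idx Γ) (c : ℝ) : Set (M X s i).E := (M X s i).Small (s i.1).ℓ c

/-- asymptotically small sequences -/
def NN : Subgroup (∀ i : Idx Γ, (M X s i).E) where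
  carrier := {x | ∀ δ : ℝ, 0 < δ → ∀ᶠ i in Filter.atTop, x i ∈ Sm X s i δ}
  one_mem' := by
    intro δ hδ
    exact Filter.Eventually.of_forall (fun i => Model.Small.one hδ.le)
  mul_mem' := by
    intro x y hx hy δ hδ
    filter_upwards [hx (δ / 2) (by linarith), hy (δ / 2) (by linarith)] with i h1 h2
    have := Model.Small.mul h1 h2
    rwa [add_halves] at this
  inv_mem' := by
    intro x hx δ hδ
    filter_upwards [hx δ hδ] with i h1
    exact Model.Small.inv h1

instance : (NN X s).Normal := ⟨by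
  intro x hx g δ hδ
  filter_upwards [hx δ hδ] with i h1
  exact Model.Small.conj h1 (g i)⟩

/-- the group of sequences modulo small ones -/
abbrev Q := (∀ i : Idx Γ, (M X s i).E) ⧸ NN X s

/-- representative of a word -/
noncomputable def rep (ω : List (Σ v, Γ v)) (i : Idx Γ) : (M X s i).E :=
  (M X s i).ev (ω.map (fun t => ⟨t.1, (s i.1).φ t.1 t.2⟩))

lemma eventually_large (F : Finset (Σ v, Γ v)) (m k : ℕ) :
    ∀ᶠ i : Idx Γ in Filter.atTop, F ⊆ i.1.1 ∧ m ≤ i.1.2 ∧ k ≤ i.2 := by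
  classical
  rw [Filter.eventually_atTop]
  exact ⟨((F, m), k), fun b hb => ⟨hb.1.1, hb.1.2, hb.2⟩⟩

/-- the homomorphism on a vertex group -/
noncomputable def θ (v : V) : Γ v →* Q X s :=
  MonoidHom.mk' (fun g => QuotientGroup.mk (fun i => (M X s i).ψ v ((s i.1).φ v g))) (by
    classical
    intro g h
    rw [← QuotientGroup.mk_mul, QuotientGroup.eq]
    intro δ hδ
    obtain ⟨m, hm⟩ := exists_nat_one_div_lt hδ
    filter_upwards [eventually_large {⟨v, g⟩, ⟨v, h⟩, ⟨v, g * h⟩} m 0] with i ⟨hF, hi, _⟩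
    have h1 := (s i.1).approx v g h (hF (by simp)) (hF (by simp)) (hF (by simp))
    have h2 : ((fun i => (M X s i).ψ v ((s i.1).φ v (g * h)))⁻¹ *
        ((fun i => (M X s i).ψ v ((s i.1).φ v g)) *
          (fun i => (M X s i).ψ v ((s i.1).φ v h)))) i =
        (M X s i).ψ v (((s i.1).φ v (g * h))⁻¹ * ((s i.1).φ v g * (s i.1).φ v h)) := by
      simp
    rw [h2]
    refine Model.Small.mono ?_ (Model.small_ψ v _)
    refine h1.trans (le_trans ?_ hm.le)
    apply one_div_le_one_div_of_le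
    · positivity
    · exact_mod_cast Nat.add_le_add_right hi 1)

lemma θ_apply (v : V) (g : Γ v) :
    θ X s v g = QuotientGroup.mk (fun i => (M X s i).ψ v ((s i.1).φ v g)) := rfl

/-- the homomorphism from the graph product -/
noncomputable def Θ : GraphProduct X Γ →* Q X s :=
  QuotientGroup.lift _ (Monoid.CoprodI.lift (θ X s)) (by
    intro x hx
    have : Subgroup.normalClosure (graphRelators X Γ) ≤
        (Monoid.CoprodI.lift (θ X s)).ker := by
      apply Subgroup.normalClosure_le_normal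
      rintro c ⟨u, v, huv, a, b, rfl⟩
      change Monoid.CoprodI.lift (θ X s) _ = 1
      rw [map_mul, map_mul, map_mul, map_inv, map_inv, Monoid.CoprodI.lift_of,
        Monoid.CoprodI.lift_of, θ_apply, θ_apply]
      rw [← QuotientGroup.mk_mul, ← QuotientGroup.mk_inv, ← QuotientGroup.mk_inv,
        ← QuotientGroup.mk_mul, ← QuotientGroup.mk_mul]
      rw [QuotientGroup.eq_one_iff]
      have : ((fun i => (M X s i).ψ u ((s i.1).φ u a)) * (fun i => (M X s i).ψ v ((s i.1).φ v b)) *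
          (fun i => (M X s i).ψ u ((s i.1).φ u a))⁻¹ *
          (fun i => (M X s i).ψ v ((s i.1).φ v b))⁻¹ : ∀ i : Idx Γ, (M X s i).E) = 1 := by
        funext i
        have := (M X s i).comm u v huv ((s i.1).φ u a) ((s i.1).φ v b)
        simp only [Pi.mul_apply, Pi.inv_apply, Pi.one_apply]
        rw [this.eq]
        group
      rw [this]
      exact one_mem _
    exact this hx)

/-- the embedding of a vertex group -/
noncomputable def ofP (v : V) : Γ v →* GraphProduct X Γ :=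
  (QuotientGroup.mk' _).comp Monoid.CoprodI.of

lemma Θ_ofP (v : V) (g : Γ v) : Θ X s (ofP X v g) = θ X s v g := by
  change Monoid.CoprodI.lift (θ X s) (Monoid.CoprodI.of g) = _
  rw [Monoid.CoprodI.lift_of]

/-- value of a word in the graph product -/
noncomputable def val (ω : List (Σ v, Γ v)) : GraphProduct X Γ :=
  (ω.map (fun t => ofP X t.1 t.2)).prod

@[simp] lemma val_nil : val X ([] : List (Σ v, Γ v)) = 1 := rfl
@[simp] lemma val_cons (t : Σ v, Γ v) (ω : List (Σ v, Γ v)) :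
    val X (t :: ω) = ofP X t.1 t.2 * val X ω := by simp [val]
@[simp] lemma val_append (ω ω' : List (Σ v, Γ v)) :
    val X (ω ++ ω') = val X ω * val X ω' := by simp [val]

lemma Θ_val (ω : List (Σ v, Γ v)) : Θ X s (val X ω) = QuotientGroup.mk (rep X s ω) := by
  induction ω with
  | nil =>
    rw [val_nil, map_one]
    rfl
  | cons t ω ih =>
    rw [val_cons, map_mul, ih, Θ_ofP, θ_apply, ← QuotientGroup.mk_mul]
    rfl

lemma exists_val (z : GraphProduct X Γ) : ∃ ω, val X ω = z := by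
  obtain ⟨y, rfl⟩ := QuotientGroup.mk_surjective z
  induction y using Monoid.CoprodI.induction_on with
  | one => exact ⟨[], rfl⟩
  | of i m => exact ⟨[⟨i, m⟩], by simp; rfl⟩
  | mul x y hx hy =>
    obtain ⟨a, ha⟩ := hx
    obtain ⟨b, hb⟩ := hy
    exact ⟨a ++ b, by rw [val_append, ha, hb]; rfl⟩

/-- inverse word -/
def invw (ω : List (Σ v, Γ v)) : List (Σ v, Γ v) := (ω.map (fun t => ⟨t.1, t.2⁻¹⟩)).reverse

lemma val_invw (ω : List (Σ v, Γ v)) : val X (invw ω) = (val X ω)⁻¹ := by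
  induction ω with
  | nil => simp [invw]
  | cons t ω ih =>
    have : invw (t :: ω) = invw ω ++ [⟨t.1, t.2⁻¹⟩] := by simp [invw]
    rw [this, val_append, ih]
    simp

end Pool.Agent.W_MP_f2b0dc_al
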